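import Pool.Agent.JT71.Defs
import Pool.Agent.JT78.Defs

/-!
# m-strong digraphs have many arcs across every proper bi-set

Paper proof.  Let `F` be the set of arcs from side `2` to side `0`, and suppose
`#F + #W < m`, `W` the wall.  If some `a` in side 2 and `b` in side 0 have `¬ D a b`, choose for
every arc `(u, v)` of `F` the vertex `u` if `u ≠ a` and the vertex `v` otherwise (then `v ≠ b`).
With `W` these are fewer than `m` vertices, they avoid `a` and `b`, and no walk avoiding them goes
from `a` to `b` (the first arc leaving side 2 goes to side 0, hence is in `F`): contradiction.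
Hence `F` contains all pairs and `#F = #A * #B ≥ #A + #B - 1 ≥ (m + 1) - #W - 1`, contradiction.
-/

namespace Pool.Agent.JT71

open Finset Pool.Agent.JT78

universe u

open Classical in
theorem arcs_ge {V : Type u} [Fintype V] (m : ℕ) (D : V → V → Prop) (hD : KStrong m D)
    (X : V → Fin 3) (hp : Proper X) (hw : #(side X 1) < m) :
    m ≤ #(side X 1) + #(univ.filter (fun p : V × V => D p.1 p.2 ∧ X p.1 = 2 ∧ X p.2 = 0)) := by
  by_contra hcon
  push Not at hcon
  set F : Finset (V × V) :=
    univ.filter (fun p : V × V => D p.1 p.2 ∧ X p.1 = 2 ∧ X p.2 = 0) with hF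
  by_cases hall : ∀ a b, X a = 2 → X b = 0 → D a b
  · have e : F = side X 2 ×ˢ side X 0 := by
      ext ⟨a, b⟩
      simp only [hF, side, mem_filter, mem_univ, true_and, mem_product]
      exact ⟨fun h => h.2, fun h => ⟨hall a b h.1 h.2, h⟩⟩
    have hc : #(side X 0) + #(side X 1) + #(side X 2) = Fintype.card V := by
      have hd : Fintype.card V = ∑ i : Fin 3, #(univ.filter (fun v => X v = i)) := by
        rw [← card_univ]
        exact card_eq_sum_card_fiberwise (fun v _ => mem_univ _)
      rw [hd, Fin.sum_univ_three]
      rfl
    obtain ⟨⟨a, ha⟩, ⟨b, hb⟩⟩ := hp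
    have h2 : 1 ≤ #(side X 2) := card_pos.mpr ⟨a, by simp [side, ha]⟩
    have h0 : 1 ≤ #(side X 0) := card_pos.mpr ⟨b, by simp [side, hb]⟩
    have hV := hD.1
    rw [e, card_product] at hcon
    have : #(side X 2) + #(side X 0) ≤ #(side X 2) * #(side X 0) + 1 := by nlinarith
    omega
  · push Not at hall
    obtain ⟨a, b, ha, hb, hab⟩ := hall
    set g : V × V → V := fun p => if p.1 = a then p.2 else p.1 with hg
    set Z : Finset V := side X 1 ∪ F.image g with hZ
    have hZc : #Z < m := lt_of_le_of_lt ((card_union_le _ _).trans
      (Nat.add_le_add_left card_image_le _)) hcon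
    have haZ : a ∉ Z := by
      rw [hZ, mem_union, mem_image]
      rintro (h | ⟨⟨u, v⟩, h1, h2⟩)
      · simp [side, ha] at h
      · simp only [hF, mem_filter, mem_univ, true_and] at h1
        simp only [hg] at h2
        split_ifs at h2 with h3
        · rw [h2, ha] at h1
          exact absurd h1.2.2 (by decide)
        · exact h3 h2
    have hbZ : b ∉ Z := by
      rw [hZ, mem_union, mem_image]
      rintro (h | ⟨⟨u, v⟩, h1, h2⟩)
      · simp [side, hb] at h
      · simp only [hF, mem_filter, mem_univ, true_and] at h1
        simp only [hg] at h2
        split_ifs at h2 with h3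
        · rw [h2, h3] at h1
          exact hab h1.1
        · rw [h2, hb] at h1
          exact absurd h1.2.1 (by decide)
    have hpath := hD.2 Z hZc a b haZ hbZ
    have key : ∀ y, Relation.ReflTransGen (fun a b => D a b ∧ a ∉ Z ∧ b ∉ Z) a y → X y = 2 := by
      intro y hy
      induction hy with
      | refl => exact ha
      | @tail x y _ hst ih =>
        obtain ⟨hD', hx, hy⟩ := hst
        have h1 : X y ≠ 1 := by
          intro h
          apply hy
          rw [hZ, mem_union]
          left
          simp [side, h]
        have h0 : X y ≠ 0 := by
          intro h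
          have hmem : (x, y) ∈ F := by simp [hF, hD', ih, h]
          have hgm : g (x, y) ∈ Z := by
            rw [hZ, mem_union]
            right
            exact mem_image_of_mem g hmem
          simp only [hg] at hgm
          split_ifs at hgm with h3
          · exact hy hgm
          · exact hx hgm
        revert h0 h1
        generalize X y = z
        revert z
        decide
    have key := key b hpath
    rw [hb] at key
    exact absurd key (by decide)

end Pool.Agent.JT71
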