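import Pool.Agent.JT71.Defs

/-!
# Basic facts: reversal, separated edges, degrees

`sep_ge`: `cut X` is the sum over the separated edges of `y e` or `1 - y e`, hence it is smaller
than the number of separated edges if there is at least one.
`cut_rv`: every separated edge contributes `y e` to one of `cut X`, `cut (rv X)` and `1 - y e` to
the other one.
-/

namespace Pool.Agent.JT71

open Finset

variable {V ι : Type*}

theorem rv_rv (X : V → Fin 3) : rv (rv X) = X := by
  funext v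
  simp [rv]

theorem rv_eq_two {X : V → Fin 3} {v : V} : rv X v = 2 ↔ X v = 0 := by
  unfold rv
  generalize X v = a
  revert a
  decide

theorem rv_eq_one {X : V → Fin 3} {v : V} : rv X v = 1 ↔ X v = 1 := by
  unfold rv
  generalize X v = a
  revert a
  decide

theorem rv_eq_zero {X : V → Fin 3} {v : V} : rv X v = 0 ↔ X v = 2 := by
  unfold rv
  generalize X v = a
  revert a
  decide

theorem rv_le_rv {X Y : V → Fin 3} : rv X ≤ rv Y ↔ Y ≤ X := by
  constructor
  · intro h v
    have := h v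
    simpa [rv, Fin.rev_le_rev] using this
  · intro h v
    have := h v
    simpa [rv, Fin.rev_le_rev] using this

theorem side_rv_two [Fintype V] (X : V → Fin 3) : side (rv X) 2 = side X 0 := by
  ext v
  simp [side, rv_eq_two]

theorem side_rv_one [Fintype V] (X : V → Fin 3) : side (rv X) 1 = side X 1 := by
  ext v
  simp [side, rv_eq_one]

theorem side_rv_zero [Fintype V] (X : V → Fin 3) : side (rv X) 0 = side X 2 := by
  ext v
  simp [side, rv_eq_zero]

theorem sep_rv [Fintype ι] (C : Cfg V ι) (X : V → Fin 3) : C.sep (rv X) = C.sep X := by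
  ext e
  simp only [Cfg.sep, mem_filter, mem_univ, true_and, rv_eq_two, rv_eq_zero]
  constructor
  · rintro (⟨h1, h2⟩ | ⟨h1, h2⟩)
    · exact Or.inr ⟨h2, h1⟩
    · exact Or.inl ⟨h2, h1⟩
  · rintro (⟨h1, h2⟩ | ⟨h1, h2⟩)
    · exact Or.inr ⟨h2, h1⟩
    · exact Or.inl ⟨h2, h1⟩

private theorem cc_rv (X : V → Fin 3) (u v : V) : cc (rv X u) (rv X v) = cc (X v) (X u) := by
  unfold cc
  simp only [rv_eq_two, rv_eq_zero]
  by_cases h1 : X u = 0 <;> by_cases h2 : X v = 2 <;> simp [h1, h2]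

theorem row_rv (C : Cfg V ι) (X : V → Fin 3) : C.row (rv X) = - C.row X := by
  funext e
  simp only [Cfg.row, cc_rv, Pi.neg_apply]
  ring

private theorem cc_add (C : Cfg V ι) (X : V → Fin 3) (e : ι) :
    ((cc (X (C.s e)) (X (C.t e)) : ℝ) + (cc (X (C.t e)) (X (C.s e)) : ℝ))
      = if ((X (C.s e) = 2 ∧ X (C.t e) = 0) ∨ (X (C.t e) = 2 ∧ X (C.s e) = 0)) then 1 else 0 := by
  unfold cc
  generalize X (C.s e) = a
  generalize X (C.t e) = b
  fin_cases a <;> fin_cases b <;> simp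

private theorem card_sep_eq [Fintype ι] (C : Cfg V ι) (X : V → Fin 3) :
    (#(C.sep X) : ℝ) =
      ∑ e, ((cc (X (C.s e)) (X (C.t e)) : ℝ) + (cc (X (C.t e)) (X (C.s e)) : ℝ)) := by
  unfold Cfg.sep
  rw [Finset.card_filter, Nat.cast_sum]
  refine Finset.sum_congr rfl fun e _ => ?_
  rw [cc_add]
  push_cast
  rfl

theorem cut_rv [Fintype ι] (C : Cfg V ι) (X : V → Fin 3) :
    C.cut (rv X) = (#(C.sep X) : ℝ) - C.cut X := by
  rw [card_sep_eq]
  unfold Cfg.cut
  rw [← Finset.sum_sub_distrib]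
  refine Finset.sum_congr rfl fun e _ => ?_
  rw [cc_rv, cc_rv]
  ring

theorem sep_ge [Fintype ι] (C : Cfg V ι) (X : V → Fin 3) (w : ℕ) (hw : 1 ≤ w)
    (h : (w : ℝ) ≤ C.cut X) : w + 1 ≤ #(C.sep X) := by
  have hterm : ∀ e, ((cc (X (C.s e)) (X (C.t e)) : ℝ) * C.y e
      + (cc (X (C.t e)) (X (C.s e)) : ℝ) * (1 - C.y e))
      ≤ ((cc (X (C.s e)) (X (C.t e)) : ℝ) + (cc (X (C.t e)) (X (C.s e)) : ℝ)) := by
    intro e
    have h1 := C.y_pos e
    have h2 := C.y_lt e
    have h3 : (0 : ℝ) ≤ (cc (X (C.s e)) (X (C.t e)) : ℝ) := Nat.cast_nonneg _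
    have h4 : (0 : ℝ) ≤ (cc (X (C.t e)) (X (C.s e)) : ℝ) := Nat.cast_nonneg _
    nlinarith
  have hlt : C.cut X < #(C.sep X) := by
    rw [card_sep_eq]
    have hcut : 0 < C.cut X := by
      have : (1 : ℝ) ≤ (w : ℝ) := by exact_mod_cast hw
      linarith
    obtain ⟨e, -, he⟩ : ∃ e ∈ (univ : Finset ι), ((cc (X (C.s e)) (X (C.t e)) : ℝ) * C.y e
      + (cc (X (C.t e)) (X (C.s e)) : ℝ) * (1 - C.y e)) ≠ 0 := by
      refine Finset.exists_ne_zero_of_sum_ne_zero ?_
      exact ne_of_gt hcut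
    unfold Cfg.cut
    refine Finset.sum_lt_sum (fun e _ => hterm e) ⟨e, mem_univ e, ?_⟩
    have h1 := C.y_pos e
    have h2 := C.y_lt e
    have h3 : (0 : ℝ) ≤ (cc (X (C.s e)) (X (C.t e)) : ℝ) := Nat.cast_nonneg _
    have h4 : (0 : ℝ) ≤ (cc (X (C.t e)) (X (C.s e)) : ℝ) := Nat.cast_nonneg _
    have h5 : 0 < (cc (X (C.s e)) (X (C.t e)) : ℝ) + (cc (X (C.t e)) (X (C.s e)) : ℝ) := by
      rcases h3.eq_or_lt with h3' | h3'
      · rcases h4.eq_or_lt with h4' | h4'
        · exfalso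
          apply he
          rw [← h3', ← h4']
          ring
        · linarith
      · linarith
    rcases h3.eq_or_lt with h3' | h3'
    · have : 0 < (cc (X (C.t e)) (X (C.s e)) : ℝ) := by linarith
      nlinarith
    · nlinarith
  have : (w : ℝ) < #(C.sep X) := lt_of_le_of_lt h hlt
  exact_mod_cast this

theorem sum_deg [Fintype V] [DecidableEq V] [Fintype ι] (C : Cfg V ι) :
    ∑ v, C.deg v = 2 * Fintype.card ι := by
  unfold Cfg.deg
  simp only [Finset.card_filter]
  rw [Finset.sum_comm]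
  have : ∀ e : ι, (∑ v : V, if (C.s e = v ∨ C.t e = v) then 1 else 0) = 2 := by
    intro e
    rw [← Finset.card_filter]
    have : (univ.filter (fun v => C.s e = v ∨ C.t e = v)) = {C.s e, C.t e} := by
      ext v
      simp [eq_comm]
    rw [this, Finset.card_pair (C.hst e)]
  simp only [this]
  simp [mul_comm]

private theorem sep_le_sum_deg_aux [Fintype V] [DecidableEq V] [Fintype ι] (C : Cfg V ι)
    (A : Finset V) (S : Finset ι) (h : ∀ e ∈ S, C.s e ∈ A ∨ C.t e ∈ A) :
    #S ≤ ∑ v ∈ A, C.deg v := by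
  classical
  unfold Cfg.deg
  refine le_trans ?_ (Finset.card_biUnion_le (s := A)
    (t := fun v => univ.filter (fun e => C.s e = v ∨ C.t e = v)))
  refine Finset.card_le_card ?_
  intro e he
  rw [mem_biUnion]
  rcases h e he with h1 | h1
  · exact ⟨C.s e, h1, by simp⟩
  · exact ⟨C.t e, h1, by simp⟩

theorem sep_le_sum_deg_two [Fintype V] [DecidableEq V] [Fintype ι] (C : Cfg V ι)
    (X : V → Fin 3) : #(C.sep X) ≤ ∑ v ∈ side X 2, C.deg v := by
  refine sep_le_sum_deg_aux C _ _ ?_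
  intro e he
  simp only [Cfg.sep, mem_filter, mem_univ, true_and] at he
  simp only [side, mem_filter, mem_univ, true_and]
  rcases he with ⟨h1, _⟩ | ⟨h1, _⟩
  · exact Or.inl h1
  · exact Or.inr h1

theorem sep_le_sum_deg_zero [Fintype V] [DecidableEq V] [Fintype ι] (C : Cfg V ι)
    (X : V → Fin 3) : #(C.sep X) ≤ ∑ v ∈ side X 0, C.deg v := by
  refine sep_le_sum_deg_aux C _ _ ?_
  intro e he
  simp only [Cfg.sep, mem_filter, mem_univ, true_and] at he
  simp only [side, mem_filter, mem_univ, true_and]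
  rcases he with ⟨_, h1⟩ | ⟨_, h1⟩
  · exact Or.inr h1
  · exact Or.inl h1

end Pool.Agent.JT71
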