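import Pool.Agent.JT71.Uncross

/-!
# A cross-free basis of the rows of the tight bi-sets

`cr_inf`: `Cr (X ⊓ Y) Z` gives `v` with all three letters `2`.  As `¬ Cr Y Z`, one of:
`Y ≤ Z` (then `X ⊓ Y ≤ Z`, contradiction); or `Z ≤ Y` (then the `v` with `X v = Y v = 0` has
`Z v = 0`, and `Z ≤ X` would give `Z ≤ X ⊓ Y`); or no `v` with `Y v = Z v = 0` (then a `v` with
`(X ⊓ Y) v = 0 = Z v` has `X v = 0`, and `Z ≤ X` would give `Z v = 0` at a `v` with
`X v = Y v = 0`).  `cr_sup` is the dual statement.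

Basis: let `𝓛₀` be a maximal set of pairwise non-crossing tight bi-sets.  If the row of some tight
`X` is not in the span of the rows of `𝓛₀`, choose such an `X` crossing as few members of `𝓛₀` as
possible.  It crosses some `Y ∈ 𝓛₀` by maximality.  By `uncross` the row of `X ⊓ Y` or of `X ⊔ Y`
is not in the span (so this bi-set is tight); by `cr_inf`/`cr_sup` it crosses only members crossed
by `X`, and it does not cross `Y`: contradiction.  Finally take a subset of `𝓛₀` whose rows are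
linearly independent (and distinct) with the same span.
-/

namespace Pool.Agent.JT71

open Finset

variable {V ι : Type*}

theorem cr_inf {X Y Z : V → Fin 3} (h0 : ∃ v, X v = 0 ∧ Y v = 0) (hYZ : ¬ Cr Y Z)
    (h : Cr (X ⊓ Y) Z) : Cr X Z := by
  obtain ⟨⟨v, hv2, hvZ⟩, ⟨v0, hv0, hv0Z⟩, hle, hge⟩ := h
  have hXv : X v = 2 := by
    have h1 : (X ⊓ Y) v ≤ X v := inf_le_left (a := X) (b := Y) v
    rw [hv2] at h1
    exact le_antisymm (Fin.le_last _) h1
  have hYv : Y v = 2 := by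
    have h1 : (X ⊓ Y) v ≤ Y v := inf_le_right (a := X) (b := Y) v
    rw [hv2] at h1
    exact le_antisymm (Fin.le_last _) h1
  have hXZ : ¬ X ≤ Z := fun hh => hle (inf_le_left.trans hh)
  have hzero : ∀ a : Fin 3, a ≤ 0 → a = 0 := fun a ha => le_antisymm ha (Fin.zero_le _)
  by_cases c1 : Y ≤ Z
  · exact absurd (inf_le_right.trans c1) hle
  by_cases c2 : Z ≤ Y
  · obtain ⟨u, hXu, hYu⟩ := h0
    refine ⟨⟨v, hXv, hvZ⟩, ⟨u, hXu, ?_⟩, hXZ, ?_⟩
    · have := c2 u
      rw [hYu] at this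
      exact hzero _ this
    · intro hh
      exact hge (le_inf hh c2)
  · have c3 : ¬ ∃ v, Y v = 0 ∧ Z v = 0 := by
      intro c3
      exact hYZ ⟨⟨v, hYv, hvZ⟩, c3, c1, c2⟩
    have hXv0 : X v0 = 0 := by
      have h1 : (X ⊓ Y) v0 = X v0 ⊓ Y v0 := rfl
      rw [h1] at hv0
      rcases le_total (X v0) (Y v0) with h2 | h2
      · rwa [inf_eq_left.mpr h2] at hv0
      · rw [inf_eq_right.mpr h2] at hv0
        exact absurd ⟨v0, hv0, hv0Z⟩ c3
    refine ⟨⟨v, hXv, hvZ⟩, ⟨v0, hXv0, hv0Z⟩, hXZ, ?_⟩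
    intro hh
    obtain ⟨u, hXu, hYu⟩ := h0
    have := hh u
    rw [hXu] at this
    exact c3 ⟨u, hYu, hzero _ this⟩

theorem cr_sup {X Y Z : V → Fin 3} (h2 : ∃ v, X v = 2 ∧ Y v = 2) (hYZ : ¬ Cr Y Z)
    (h : Cr (X ⊔ Y) Z) : Cr X Z := by
  obtain ⟨⟨v, hv2, hvZ⟩, ⟨v0, hv0, hv0Z⟩, hle, hge⟩ := h
  have hzero : ∀ a : Fin 3, a ≤ 0 → a = 0 := fun a ha => le_antisymm ha (Fin.zero_le _)
  have htwo : ∀ a : Fin 3, 2 ≤ a → a = 2 := fun a ha => le_antisymm (Fin.le_last _) ha
  have hXv0 : X v0 = 0 := by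
    have h1 : X v0 ≤ (X ⊔ Y) v0 := le_sup_left (a := X) (b := Y) v0
    rw [hv0] at h1
    exact hzero _ h1
  have hYv0 : Y v0 = 0 := by
    have h1 : Y v0 ≤ (X ⊔ Y) v0 := le_sup_right (a := X) (b := Y) v0
    rw [hv0] at h1
    exact hzero _ h1
  have hZX : ¬ Z ≤ X := fun hh => hge (hh.trans le_sup_left)
  by_cases c1 : Z ≤ Y
  · exact absurd (c1.trans le_sup_right) hge
  by_cases c2 : Y ≤ Z
  · obtain ⟨u, hXu, hYu⟩ := h2
    refine ⟨⟨u, hXu, ?_⟩, ⟨v0, hXv0, hv0Z⟩, ?_, hZX⟩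
    · have := c2 u
      rw [hYu] at this
      exact htwo _ this
    · intro hh
      exact hle (sup_le hh c2)
  · have c3 : ¬ ∃ v, Y v = 2 ∧ Z v = 2 := by
      intro c3
      exact hYZ ⟨c3, ⟨v0, hYv0, hv0Z⟩, c2, c1⟩
    have hXv : X v = 2 := by
      have h1 : (X ⊔ Y) v = X v ⊔ Y v := rfl
      rw [h1] at hv2
      rcases le_total (X v) (Y v) with h3 | h3
      · rw [sup_eq_right.mpr h3] at hv2
        exact absurd ⟨v, hv2, hvZ⟩ c3
      · rwa [sup_eq_left.mpr h3] at hv2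
    refine ⟨⟨v, hXv, hvZ⟩, ⟨v0, hXv0, hv0Z⟩, ?_, hZX⟩
    intro hh
    obtain ⟨u, hXu, hYu⟩ := h2
    have := hh u
    rw [hXu] at this
    exact c3 ⟨u, hYu, htwo _ this⟩

private theorem cr_symm {X Y : V → Fin 3} (h : Cr X Y) : Cr Y X := by
  obtain ⟨⟨v, h1, h2⟩, ⟨u, h3, h4⟩, h5, h6⟩ := h
  exact ⟨⟨v, h2, h1⟩, ⟨u, h4, h3⟩, h6, h5⟩

theorem exists_crossfree_basis [Fintype V] [Fintype ι] (C : Cfg V ι) (k w : ℕ)
    (h1 : C.H1 k w) :
    ∃ L : Finset (V → Fin 3), (∀ X ∈ L, C.Tight k w X) ∧ (∀ X ∈ L, ∀ Y ∈ L, ¬ Cr X Y) ∧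
      LinearIndependent ℝ (fun X : L => C.row X) ∧
      ∀ X, C.Tight k w X → C.row X ∈ Submodule.span ℝ (C.row '' (L : Set (V → Fin 3))) := by
  classical
  -- a maximal cross-free family of tight bi-sets
  let P : Finset (V → Fin 3) → Prop := fun L =>
    (∀ X ∈ L, C.Tight k w X) ∧ (∀ X ∈ L, ∀ Y ∈ L, ¬ Cr X Y)
  obtain ⟨L0, hL0mem, hL0max⟩ := Finset.exists_max_image
    ((univ : Finset (Finset (V → Fin 3))).filter P) Finset.card
    ⟨∅, by simp [P]⟩
  have hL0 : P L0 := (Finset.mem_filter.mp hL0mem).2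
  have hspan : ∀ X, C.Tight k w X →
      C.row X ∈ Submodule.span ℝ (C.row '' (L0 : Set (V → Fin 3))) := by
    by_contra hcon
    push Not at hcon
    obtain ⟨X1, hX1t, hX1s⟩ := hcon
    obtain ⟨X, hXmem, hXmin⟩ := Finset.exists_min_image
      ((univ : Finset (V → Fin 3)).filter (fun X => C.Tight k w X ∧
        C.row X ∉ Submodule.span ℝ (C.row '' (L0 : Set (V → Fin 3)))))
      (fun X => #(L0.filter (fun Z => Cr X Z))) ⟨X1, by simp [hX1t, hX1s]⟩
    obtain ⟨-, hXt, hXs⟩ := Finset.mem_filter.mp hXmem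
    have hXL : X ∉ L0 := fun hh => hXs (Submodule.subset_span ⟨X, hh, rfl⟩)
    -- X crosses a member
    have hcross : ∃ Y ∈ L0, Cr X Y := by
      by_contra hno
      push Not at hno
      have hP : P (insert X L0) := by
        refine ⟨?_, ?_⟩
        · intro Z hZ
          rcases Finset.mem_insert.mp hZ with rfl | hZ
          · exact hXt
          · exact hL0.1 Z hZ
        · intro Z hZ Z' hZ' hc
          rcases Finset.mem_insert.mp hZ with hz | hz
          · rcases Finset.mem_insert.mp hZ' with hz' | hz'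
            · rw [hz, hz'] at hc
              exact hc.2.2.1 le_rfl
            · rw [hz] at hc
              exact hno Z' hz' hc
          · rcases Finset.mem_insert.mp hZ' with hz' | hz'
            · rw [hz'] at hc
              exact hno Z hz (cr_symm hc)
            · exact hL0.2 Z hz Z' hz' hc
      have := hL0max (insert X L0) (Finset.mem_filter.mpr ⟨Finset.mem_univ _, hP⟩)
      rw [Finset.card_insert_of_notMem hXL] at this
      omega
    obtain ⟨Y, hY, hXY⟩ := hcross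
    obtain ⟨hinf, hsup, hrow⟩ := uncross C k w h1 hXt (hL0.1 Y hY) hXY
    have hYs : C.row Y ∈ Submodule.span ℝ (C.row '' (L0 : Set (V → Fin 3))) :=
      Submodule.subset_span ⟨Y, hY, rfl⟩
    have hone : C.row (X ⊓ Y) ∉ Submodule.span ℝ (C.row '' (L0 : Set (V → Fin 3))) ∨
        C.row (X ⊔ Y) ∉ Submodule.span ℝ (C.row '' (L0 : Set (V → Fin 3))) := by
      by_contra hno
      push Not at hno
      apply hXs
      have : C.row X = C.row (X ⊓ Y) + C.row (X ⊔ Y) - C.row Y := by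
        rw [← hrow]; abel
      rw [this]
      exact Submodule.sub_mem _ (Submodule.add_mem _ hno.1 hno.2) hYs
    -- a general contradiction
    have key : ∀ W : V → Fin 3, (C.Tight k w W ∨ C.row W = 0) →
        C.row W ∉ Submodule.span ℝ (C.row '' (L0 : Set (V → Fin 3))) →
        (∀ Z ∈ L0, Cr W Z → Cr X Z) → ¬ Cr W Y → False := by
      intro W hW hWs hWc hWY
      have hWt : C.Tight k w W := by
        rcases hW with hW | hW
        · exact hW
        · exact absurd (hW ▸ Submodule.zero_mem _) hWs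
      have hlt : #(L0.filter (fun Z => Cr W Z)) < #(L0.filter (fun Z => Cr X Z)) := by
        apply Finset.card_lt_card
        rw [Finset.ssubset_iff_of_subset]
        · exact ⟨Y, Finset.mem_filter.mpr ⟨hY, hXY⟩, fun hh => hWY (Finset.mem_filter.mp hh).2⟩
        · intro Z hZ
          obtain ⟨hZ1, hZ2⟩ := Finset.mem_filter.mp hZ
          exact Finset.mem_filter.mpr ⟨hZ1, hWc Z hZ1 hZ2⟩
      have := hXmin W (Finset.mem_filter.mpr ⟨Finset.mem_univ _, hWt, hWs⟩)
      omega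
    rcases hone with hone | hone
    · exact key _ hinf hone (fun Z hZ hc => cr_inf hXY.2.1 (hL0.2 Y hY Z hZ) hc)
        (fun hc => hc.2.2.1 inf_le_right)
    · exact key _ hsup hone (fun Z hZ hc => cr_sup hXY.1 (hL0.2 Y hY Z hZ) hc)
        (fun hc => hc.2.2.2 le_sup_right)
  obtain ⟨b, hb, -, hbspan, hbind⟩ := exists_linearIndepOn_extension (K := ℝ)
    (v := C.row) (s := ∅) (t := (L0 : Set (V → Fin 3)))
    (linearIndepOn_empty ℝ C.row) (Set.empty_subset _)
  refine ⟨b.toFinset, ?_, ?_, ?_, ?_⟩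
  · intro X hX
    exact hL0.1 X (hb (Set.mem_toFinset.mp hX))
  · intro X hX Y hY
    exact hL0.2 X (hb (Set.mem_toFinset.mp hX)) Y (hb (Set.mem_toFinset.mp hY))
  · have h3 : LinearIndepOn ℝ C.row ((b.toFinset : Finset (V → Fin 3)) : Set (V → Fin 3)) := by
      rw [Set.coe_toFinset]
      exact hbind
    exact h3
  · intro X hX
    rw [Set.coe_toFinset]
    exact (Submodule.span_le.mpr hbspan) (hspan X hX)

/-- a direction orthogonal to all tight rows -/
theorem exists_dir [Fintype V] [Fintype ι] (C : Cfg V ι) (k w : ℕ) (L : Finset (V → Fin 3))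
    (hspan : ∀ X, C.Tight k w X →
      C.row X ∈ Submodule.span ℝ (C.row '' (L : Set (V → Fin 3))))
    (hcard : #L < Fintype.card ι) :
    ∃ d : ι → ℝ, d ≠ 0 ∧ ∀ X, C.Tight k w X → ∑ e, C.row X e * d e = 0 := by
  classical
  let φ : (ι → ℝ) →ₗ[ℝ] (L → ℝ) :=
    { toFun := fun d X => ∑ e, C.row X e * d e
      map_add' := by
        intro a b
        funext X
        simp [mul_add, Finset.sum_add_distrib]
      map_smul' := by
        intro c a
        funext X
        simp only [Pi.smul_apply, smul_eq_mul, RingHom.id_apply, Finset.mul_sum]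
        exact Finset.sum_congr rfl (fun e _ => by ring) }
  have hlt : Module.finrank ℝ (L → ℝ) < Module.finrank ℝ (ι → ℝ) := by
    simpa using hcard
  have hker := LinearMap.ker_ne_bot_of_finrank_lt (f := φ) hlt
  obtain ⟨d, hd, hd0⟩ := (Submodule.ne_bot_iff _).mp hker
  refine ⟨d, hd0, ?_⟩
  have hL : ∀ X ∈ L, ∑ e, C.row X e * d e = 0 := by
    intro X hX
    have := congrFun (LinearMap.mem_ker.mp hd) ⟨X, hX⟩
    simpa [φ] using this
  intro X hX
  have hmem := hspan X hX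
  refine Submodule.span_induction (p := fun r _ => ∑ e, r e * d e = 0) ?_ ?_ ?_ ?_ hmem
  · rintro r ⟨Z, hZ, rfl⟩
    exact hL Z hZ
  · simp
  · intro a b _ _ ha hb
    simp only [Pi.add_apply, add_mul, Finset.sum_add_distrib, ha, hb, add_zero]
  · intro c a _ ha
    simp only [Pi.smul_apply, smul_eq_mul, mul_assoc]
    rw [← Finset.mul_sum, ha, mul_zero]

end Pool.Agent.JT71
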