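import Mathlib

/-!
# Spanning 2-strong oriented subgraphs: definitions

Bi-sets on `V` are maps `X : V → Fin 3`: the side `2` (inner side), the side `0` (outer side)
and the wall `1`.  `V → Fin 3` carries its pointwise lattice structure.
-/

namespace Pool.Agent.JT71

open Finset

/-- `1` if the pair of letters `(a, b)` is `(2, 0)`, and `0` otherwise. -/
def cc (a b : Fin 3) : ℕ := if a = 2 ∧ b = 0 then 1 else 0

/-- the reversed bi-set (letters `0` and `2` exchanged) -/
def rv {V : Type*} (X : V → Fin 3) : V → Fin 3 := fun v => Fin.rev (X v)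

/-- the set of vertices of letter `a` -/
def side {V : Type*} [Fintype V] (X : V → Fin 3) (a : Fin 3) : Finset V :=
  univ.filter (fun v => X v = a)

/-- both sides `2` and `0` are nonempty -/
def Proper {V : Type*} (X : V → Fin 3) : Prop := (∃ v, X v = 2) ∧ ∃ v, X v = 0

/-- crossing bi-sets -/
def Cr {V : Type*} (X Y : V → Fin 3) : Prop :=
  (∃ v, X v = 2 ∧ Y v = 2) ∧ (∃ v, X v = 0 ∧ Y v = 0) ∧ ¬ X ≤ Y ∧ ¬ Y ≤ X

/-- A configuration: undecided edges `ι` with ends `s e`, `t e` and amounts `y e ∈ (0, 1)`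
(the amount going from `s e` to `t e`), and a relation `Q` (the arcs that are fixed). -/
structure Cfg (V ι : Type*) where
  s : ι → V
  t : ι → V
  y : ι → ℝ
  Q : V → V → Prop
  hst : ∀ e, s e ≠ t e
  y_pos : ∀ e, 0 < y e
  y_lt : ∀ e, y e < 1

namespace Cfg

variable {V ι : Type*}

/-- no fixed arc goes from side `2` to side `0` -/
def Closed (C : Cfg V ι) (X : V → Fin 3) : Prop := ∀ u v, C.Q u v → X u = 2 → X v ≠ 0

/-- total amount going from side `2` to side `0` -/
def cut [Fintype ι] (C : Cfg V ι) (X : V → Fin 3) : ℝ :=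
  ∑ e, ((cc (X (C.s e)) (X (C.t e)) : ℝ) * C.y e
    + (cc (X (C.t e)) (X (C.s e)) : ℝ) * (1 - C.y e))

/-- the row of `X`: the coefficients of `y` in `cut X` -/
def row (C : Cfg V ι) (X : V → Fin 3) : ι → ℝ := fun e =>
  (cc (X (C.s e)) (X (C.t e)) : ℝ) - (cc (X (C.t e)) (X (C.s e)) : ℝ)

/-- the edges with one end in side `2` and the other in side `0` -/
def sep [Fintype ι] (C : Cfg V ι) (X : V → Fin 3) : Finset ι :=
  univ.filter (fun e => (X (C.s e) = 2 ∧ X (C.t e) = 0) ∨ (X (C.t e) = 2 ∧ X (C.s e) = 0))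

/-- number of undecided edges at `v` -/
def deg [Fintype ι] [DecidableEq V] (C : Cfg V ι) (v : V) : ℕ :=
  #(univ.filter (fun e => C.s e = v ∨ C.t e = v))

/-- number of undecided edges between `v` and side `2` of `X` -/
def eN [Fintype ι] [DecidableEq V] (C : Cfg V ι) (v : V) (X : V → Fin 3) : ℕ :=
  #(univ.filter (fun e => (C.s e = v ∧ X (C.t e) = 2) ∨ (C.t e = v ∧ X (C.s e) = 2)))

/-- all cut conditions hold -/
def H1 [Fintype V] [Fintype ι] (C : Cfg V ι) (k w : ℕ) : Prop :=
  ∀ X, C.Closed X → Proper X → (w : ℝ) * ((k : ℝ) - (#(side X 1) : ℝ)) ≤ C.cut X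

/-- bi-sets closed in both directions have at least `h` undecided separated edges -/
def H2 [Fintype V] [Fintype ι] (C : Cfg V ι) (k h : ℕ) : Prop :=
  ∀ X, C.Closed X → C.Closed (rv X) → Proper X → #(side X 1) ≤ 2 * (k - 1) → h ≤ #(C.sep X)

/-- tight cut conditions -/
def Tight [Fintype V] [Fintype ι] (C : Cfg V ι) (k w : ℕ) (X : V → Fin 3) : Prop :=
  C.Closed X ∧ Proper X ∧ #(side X 1) < k ∧ C.cut X = (w : ℝ) * ((k : ℝ) - (#(side X 1) : ℝ))

end Cfg

/-- both sides have at least three vertices -/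
def Big {V : Type*} [Fintype V] (X : V → Fin 3) : Prop := 3 ≤ #(side X 2) ∧ 3 ≤ #(side X 0)

end Pool.Agent.JT71
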