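import Pool.Agent.JT71.Basic

/-!
# Two events

`g` is `X` or `rv X`, `h` is `Y` or `rv Y`, `X, Y` tight (so their cuts are integers), and
`g ≤ h`.  By `cut_rv` the numbers `cut g` and `cut h` are integers.  An edge separated by both `g`
and `h` is separated in the same direction (its end in side `2` of `g` is in side `2` of `h`), so
`cut g - cut h` and `row g - row h` only depend on the edges separated by exactly one of the two.
If there is none, `row g = row h`, so `row X = row Y` or `row X = - row Y`.  If there is exactly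
one, `cut g - cut h` is `± y e` or `± (1 - y e)`, which is not an integer.
-/

namespace Pool.Agent.JT71

open Finset

variable {V ι : Type*}

private theorem tight_int [Fintype V] [Fintype ι] (C : Cfg V ι) {X : V → Fin 3}
    (hX : C.Tight 2 71 X) {g : V → Fin 3} (hg : g = X ∨ g = rv X) : ∃ m : ℤ, C.cut g = m := by
  have h1 : ∃ m : ℤ, C.cut X = m := by
    refine ⟨71 * (2 - (#(side X 1) : ℤ)), ?_⟩
    rw [hX.2.2.2]
    push_cast
    ring
  obtain ⟨m, hm⟩ := h1
  rcases hg with rfl | rfl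
  · exact ⟨m, hm⟩
  · refine ⟨(#(C.sep X) : ℤ) - m, ?_⟩
    rw [cut_rv, hm]
    push_cast
    ring

/-- the contribution of an edge to the cut -/
private noncomputable def ctr (C : Cfg V ι) (X : V → Fin 3) (e : ι) : ℝ :=
  (cc (X (C.s e)) (X (C.t e)) : ℝ) * C.y e + (cc (X (C.t e)) (X (C.s e)) : ℝ) * (1 - C.y e)

private theorem mem_sep' [Fintype ι] (C : Cfg V ι) (X : V → Fin 3) (e : ι) :
    e ∈ C.sep X ↔ (X (C.s e) = 2 ∧ X (C.t e) = 0) ∨ (X (C.t e) = 2 ∧ X (C.s e) = 0) := by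
  simp [Cfg.sep]

private theorem letters {a b c d : Fin 3} (h1 : a ≤ c) (h2 : b ≤ d)
    (hg : (a = 2 ∧ b = 0) ∨ (b = 2 ∧ a = 0)) (hh : (c = 2 ∧ d = 0) ∨ (d = 2 ∧ c = 0)) :
    a = c ∧ b = d := by
  revert a b c d
  decide

private theorem not_sep_ctr [Fintype ι] (C : Cfg V ι) (X : V → Fin 3) (e : ι)
    (h : e ∉ C.sep X) : cc (X (C.s e)) (X (C.t e)) = 0 ∧ cc (X (C.t e)) (X (C.s e)) = 0 := by
  rw [mem_sep'] at h
  push Not at h
  constructor
  · unfold cc; rw [if_neg]; rintro ⟨h1, h2⟩; exact h.1 h1 h2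
  · unfold cc; rw [if_neg]; rintro ⟨h1, h2⟩; exact h.2 h1 h2

private theorem sep_ctr [Fintype ι] (C : Cfg V ι) (X : V → Fin 3) (e : ι)
    (h : e ∈ C.sep X) : ctr C X e = C.y e ∨ ctr C X e = 1 - C.y e := by
  rw [mem_sep'] at h
  rcases h with ⟨h1, h2⟩ | ⟨h1, h2⟩
  · left; simp [ctr, cc, h1, h2]
  · right; simp [ctr, cc, h1, h2]

theorem two_events [Fintype V] [Fintype ι] [DecidableEq ι] (C : Cfg V ι) {X Y : V → Fin 3}
    (hX : C.Tight 2 71 X) (hY : C.Tight 2 71 Y)
    (h1 : C.row X ≠ C.row Y) (h2 : C.row X ≠ - C.row Y)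
    {g h : V → Fin 3} (hg : g = X ∨ g = rv X) (hh : h = Y ∨ h = rv Y) (hle : g ≤ h) :
    2 ≤ #((C.sep g \ C.sep h) ∪ (C.sep h \ C.sep g)) := by
  obtain ⟨m, hm⟩ := tight_int C hX hg
  obtain ⟨m', hm'⟩ := tight_int C hY hh
  have hcut : ∀ Z : V → Fin 3, C.cut Z = ∑ e, ctr C Z e := fun Z => rfl
  -- edges outside the symmetric difference
  have hout : ∀ e, e ∉ (C.sep g \ C.sep h) ∪ (C.sep h \ C.sep g) →
      cc (g (C.s e)) (g (C.t e)) = cc (h (C.s e)) (h (C.t e)) ∧
      cc (g (C.t e)) (g (C.s e)) = cc (h (C.t e)) (h (C.s e)) := by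
    intro e he
    simp only [mem_union, mem_sdiff, not_or, not_and, not_not] at he
    by_cases hge : e ∈ C.sep g
    · have hhe := he.1 hge
      rw [mem_sep'] at hge hhe
      obtain ⟨h3, h4⟩ := letters (hle (C.s e)) (hle (C.t e)) hge hhe
      rw [h3, h4]; exact ⟨rfl, rfl⟩
    · have hhe : e ∉ C.sep h := fun h' => hge (he.2 h')
      obtain ⟨h3, h4⟩ := not_sep_ctr C g e hge
      obtain ⟨h5, h6⟩ := not_sep_ctr C h e hhe
      rw [h3, h4, h5, h6]; exact ⟨rfl, rfl⟩
  by_contra hlt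
  push Not at hlt
  have hcard : #((C.sep g \ C.sep h) ∪ (C.sep h \ C.sep g)) = 0 ∨
      #((C.sep g \ C.sep h) ∪ (C.sep h \ C.sep g)) = 1 := by omega
  rcases hcard with h0 | h0
  · rw [card_eq_zero] at h0
    have hrow : C.row g = C.row h := by
      funext e
      obtain ⟨h3, h4⟩ := hout e (by rw [h0]; exact notMem_empty e)
      simp only [Cfg.row, h3, h4]
    rcases hg with rfl | rfl <;> rcases hh with rfl | rfl
    · exact h1 hrow
    · rw [row_rv] at hrow; exact h2 hrow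
    · rw [row_rv] at hrow; exact h2 (by rw [← hrow, neg_neg])
    · rw [row_rv, row_rv] at hrow; exact h1 (neg_injective hrow)
  · rw [card_eq_one] at h0
    obtain ⟨e0, h0⟩ := h0
    have hdiff : C.cut g - C.cut h = ctr C g e0 - ctr C h e0 := by
      rw [hcut, hcut, ← sum_sub_distrib]
      apply sum_eq_single_of_mem e0 (mem_univ _)
      intro e _ hne
      obtain ⟨h3, h4⟩ := hout e (by rw [h0]; simpa using hne)
      simp only [ctr, h3, h4, sub_self]
    have hmem : e0 ∈ (C.sep g \ C.sep h) ∪ (C.sep h \ C.sep g) := by rw [h0]; simp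
    have hy0 := C.y_pos e0
    have hy1 := C.y_lt e0
    rw [hm, hm'] at hdiff
    have hz : ∀ Z : V → Fin 3, e0 ∉ C.sep Z → ctr C Z e0 = 0 := by
      intro Z hZ
      obtain ⟨h3, h4⟩ := not_sep_ctr C Z e0 hZ
      simp [ctr, h3, h4]
    simp only [mem_union, mem_sdiff] at hmem
    have hint : ∃ x : ℝ, 0 < x ∧ x < 1 ∧ (((m - m' : ℤ) : ℝ) = x ∨ ((m - m' : ℤ) : ℝ) = -x) := by
      rcases hmem with ⟨h3, h4⟩ | ⟨h3, h4⟩
      · rw [hz h h4, sub_zero] at hdiff
        rcases sep_ctr C g e0 h3 with h5 | h5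
        · exact ⟨C.y e0, hy0, hy1, Or.inl (by push_cast; rw [hdiff, h5])⟩
        · exact ⟨1 - C.y e0, by linarith, by linarith, Or.inl (by push_cast; rw [hdiff, h5])⟩
      · rw [hz g h4, zero_sub] at hdiff
        rcases sep_ctr C h e0 h3 with h5 | h5
        · exact ⟨C.y e0, hy0, hy1, Or.inr (by push_cast; rw [hdiff, h5])⟩
        · exact ⟨1 - C.y e0, by linarith, by linarith, Or.inr (by push_cast; rw [hdiff, h5])⟩
    obtain ⟨x, hx0, hx1, hx | hx⟩ := hint
    · rw [← hx] at hx0 hx1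
      have h3 : (0 : ℤ) < m - m' := by exact_mod_cast hx0
      have h4 : m - m' < (1 : ℤ) := by exact_mod_cast hx1
      omega
    · have h3 : (-1 : ℝ) < ((m - m' : ℤ) : ℝ) := by rw [hx]; linarith
      have h4 : ((m - m' : ℤ) : ℝ) < 0 := by rw [hx]; linarith
      have h3' : (-1 : ℤ) < m - m' := by exact_mod_cast h3
      have h4' : m - m' < (0 : ℤ) := by exact_mod_cast h4
      omega

end Pool.Agent.JT71
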