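import Pool.Agent.JT71.Basic

/-!
# The potential and its increase along a strong link

`φ g v = min (deg v) 4` if `g v = 2`, `min 2 (eN v g)` if `g v = 1`, and `0` if `g v = 0`, so
`Phi g = ∑ v, φ g v`.  Let `g ≤ h`.  An event edge is an edge separated by exactly one of `g, h`.
For a vertex `v` with `g v ≠ h v` let `q v` be the number of event edges with end `v`, and
`q v = 0` if `g v = h v`.

An event edge separated by `g` only has ends of letter pairs `(g, h)` equal to `(2, 2)` and
`(0, 1)` or `(0, 2)`; one separated by `h` only has ends `(1, 2)` or `(0, 2)` and `(0, 0)`.  So each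
event edge has an end `v` with `g v ≠ h v`, and `∑ v, q v ≥ (number of events) ≥ 2`, hence
`∑ v, min 2 (q v) ≥ 2`.

Claim: `φ g v + min 2 (q v) ≤ φ h v` for all `v`:
* `(2,2)`, `(0,0)`: equality; `(1,1)`: `eN v g ≤ eN v h`.
* `(0,2)`: `min (deg v) 4 ≥ min 2 (q v)` as `q v ≤ deg v`.
* `(0,1)`: the event edges at `v` go to side `2` of `g`, so `q v ≤ eN v g ≤ eN v h`.
* `(1,2)`: the event edges at `v` go to side `0` of `h`, so `eN v g + q v ≤ deg v`, and
  `min 2 a + min 2 b ≤ min (a + b) 4`.
-/

namespace Pool.Agent.JT71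

open Finset

variable {V ι : Type*}

/-- the potential -/
def Cfg.Phi [Fintype V] [DecidableEq V] [Fintype ι] (C : Cfg V ι) (g : V → Fin 3) : ℕ :=
  ∑ v ∈ side g 2, min (C.deg v) 4 + ∑ v ∈ side g 1, min 2 (C.eN v g)

/-- the summand of the potential -/
private def ph [Fintype V] [DecidableEq V] [Fintype ι] (C : Cfg V ι) (f : V → Fin 3) (v : V) :
    ℕ :=
  if f v = 2 then min (C.deg v) 4 else if f v = 1 then min 2 (C.eN v f) else 0

private theorem Phi_eq [Fintype V] [DecidableEq V] [Fintype ι] (C : Cfg V ι) (f : V → Fin 3) :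
    C.Phi f = ∑ v, ph C f v := by
  unfold Cfg.Phi
  unfold side
  rw [sum_filter, sum_filter, ← sum_add_distrib]
  apply sum_congr rfl
  intro v _
  unfold ph
  by_cases h2 : f v = 2
  · have h1 : ¬ f v = 1 := by
      rw [h2]
      decide
    rw [if_pos h2, if_neg h1, if_pos h2, Nat.add_zero]
  · rw [if_neg h2, if_neg h2, Nat.zero_add]

private theorem mem_sep [Fintype ι] (C : Cfg V ι) (f : V → Fin 3) (e : ι) :
    e ∈ C.sep f ↔ (f (C.s e) = 2 ∧ f (C.t e) = 0) ∨ (f (C.t e) = 2 ∧ f (C.s e) = 0) := by
  unfold Cfg.sep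
  simp

private theorem le_two {a b : Fin 3} (h : a ≤ b) (h2 : a = 2) : b = 2 := by
  revert a b
  decide

private theorem le_zero {a b : Fin 3} (h : a ≤ b) (h0 : b = 0) : a = 0 := by
  revert a b
  decide

private theorem eN_mono [Fintype V] [DecidableEq V] [Fintype ι] (C : Cfg V ι)
    {g h : V → Fin 3} (hle : g ≤ h) (v : V) : C.eN v g ≤ C.eN v h := by
  unfold Cfg.eN
  apply card_le_card
  intro e he
  simp only [mem_filter, mem_univ, true_and] at he ⊢
  rcases he with ⟨h1, h2⟩ | ⟨h1, h2⟩
  · exact Or.inl ⟨h1, le_two (hle _) h2⟩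
  · exact Or.inr ⟨h1, le_two (hle _) h2⟩

private theorem pt_step [Fintype V] [DecidableEq V] [Fintype ι] [DecidableEq ι] (C : Cfg V ι)
    {g h : V → Fin 3} (hle : g ≤ h) (ev : Finset ι)
    (hev : ev = (C.sep g \ C.sep h) ∪ (C.sep h \ C.sep g)) (v : V) :
    ph C g v + min 2 (if g v = h v then 0 else #(ev.filter (fun e => C.s e = v ∨ C.t e = v)))
      ≤ ph C h v := by
  have hmem : ∀ e, e ∈ ev ↔ (e ∈ C.sep g ∧ e ∉ C.sep h) ∨ (e ∈ C.sep h ∧ e ∉ C.sep g) := by
    intro e
    rw [hev, mem_union, mem_sdiff, mem_sdiff]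
  have hdeg : #(ev.filter (fun e => C.s e = v ∨ C.t e = v)) ≤ C.deg v := by
    unfold Cfg.deg
    apply card_le_card
    intro e he
    simp only [mem_filter, mem_univ, true_and] at he ⊢
    exact he.2
  have key : ∀ a b : Fin 3, a ≤ b → (a = b) ∨ (a = 0 ∧ b = 1) ∨ (a = 0 ∧ b = 2) ∨
      (a = 1 ∧ b = 2) := by decide
  have h10 : (1 : Fin 3) ≠ 0 := by decide
  have h20 : (2 : Fin 3) ≠ 0 := by decide
  have h21 : (2 : Fin 3) ≠ 1 := by decide
  have h12 : (1 : Fin 3) ≠ 2 := by decide
  have h02 : (0 : Fin 3) ≠ 2 := by decide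
  have h01 : (0 : Fin 3) ≠ 1 := by decide
  rcases key (g v) (h v) (hle v) with hv | ⟨hg, hh⟩ | ⟨hg, hh⟩ | ⟨hg, hh⟩
  · rw [if_pos hv]
    unfold ph
    rw [← hv]
    by_cases h2 : g v = 2
    · rw [if_pos h2, if_pos h2]
      simp
    · rw [if_neg h2, if_neg h2]
      by_cases h1 : g v = 1
      · rw [if_pos h1, if_pos h1]
        have := eN_mono C hle v
        omega
      · rw [if_neg h1, if_neg h1]
        simp
  · -- (0, 1)
    have hne : ¬ g v = h v := by
      rw [hg, hh]
      exact h01
    rw [if_neg hne]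
    unfold ph
    rw [hg, hh, if_neg h02, if_neg h01, if_neg h12, if_pos rfl]
    have h3 : #(ev.filter (fun e => C.s e = v ∨ C.t e = v)) ≤ C.eN v g := by
      unfold Cfg.eN
      apply card_le_card
      intro e he
      simp only [mem_filter, mem_univ, true_and] at he ⊢
      obtain ⟨he1, he2⟩ := he
      have hnot : e ∉ C.sep h := by
        rw [mem_sep]
        rintro (⟨a1, a2⟩ | ⟨a1, a2⟩)
        · rcases he2 with e1 | e1
          · rw [e1, hh] at a1
            exact h12 a1
          · rw [e1, hh] at a2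
            exact h10 a2
        · rcases he2 with e1 | e1
          · rw [e1, hh] at a2
            exact h10 a2
          · rw [e1, hh] at a1
            exact h12 a1
      have hin : e ∈ C.sep g := by
        rcases (hmem e).1 he1 with h4 | h4
        · exact h4.1
        · exact absurd h4.1 hnot
      rw [mem_sep] at hin
      rcases hin with ⟨a1, a2⟩ | ⟨a1, a2⟩
      · rcases he2 with e1 | e1
        · rw [e1, hg] at a1
          exact absurd a1 h02
        · exact Or.inr ⟨e1, a1⟩
      · rcases he2 with e1 | e1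
        · exact Or.inl ⟨e1, a1⟩
        · rw [e1, hg] at a1
          exact absurd a1 h02
    have h4 := eN_mono C hle v
    omega
  · -- (0, 2)
    have hne : ¬ g v = h v := by
      rw [hg, hh]
      exact h02
    rw [if_neg hne]
    unfold ph
    rw [hg, hh, if_neg h02, if_neg h01, if_pos rfl]
    omega
  · -- (1, 2)
    have hne : ¬ g v = h v := by
      rw [hg, hh]
      exact h12
    rw [if_neg hne]
    unfold ph
    rw [hg, hh, if_neg h12, if_pos rfl, if_pos rfl]
    have h3 : C.eN v g + #(ev.filter (fun e => C.s e = v ∨ C.t e = v)) ≤ C.deg v := by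
      unfold Cfg.eN Cfg.deg
      rw [← card_union_of_disjoint]
      · apply card_le_card
        intro e he
        simp only [mem_union, mem_filter, mem_univ, true_and] at he ⊢
        rcases he with (h4 | h4) | h4
        · exact Or.inl h4.1
        · exact Or.inr h4.1
        · exact h4.2
      · rw [disjoint_left]
        intro e he he'
        simp only [mem_filter, mem_univ, true_and] at he he'
        obtain ⟨he1, he2⟩ := he'
        have hnot : e ∉ C.sep g := by
          rw [mem_sep]
          rintro (⟨a1, a2⟩ | ⟨a1, a2⟩)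
          · rcases he2 with e1 | e1
            · rw [e1, hg] at a1
              exact h12 a1
            · rw [e1, hg] at a2
              exact h10 a2
          · rcases he2 with e1 | e1
            · rw [e1, hg] at a2
              exact h10 a2
            · rw [e1, hg] at a1
              exact h12 a1
        have hin : e ∈ C.sep h := by
          rcases (hmem e).1 he1 with h4 | h4
          · exact absurd h4.1 hnot
          · exact h4.1
        rw [mem_sep] at hin
        have hst := C.hst e
        rcases hin with ⟨a1, a2⟩ | ⟨a1, a2⟩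
        · -- `h (s e) = 2`, `h (t e) = 0`
          have a3 := le_zero (hle (C.t e)) a2
          rcases he with ⟨b1, b2⟩ | ⟨b1, b2⟩
          · rw [a3] at b2
            exact h02 b2
          · rw [b1, hh] at a2
            exact h20 a2
        · have a3 := le_zero (hle (C.s e)) a2
          rcases he with ⟨b1, b2⟩ | ⟨b1, b2⟩
          · rw [b1, hh] at a2
            exact h20 a2
          · rw [a3] at b2
            exact h02 b2
    omega

theorem phi_step [Fintype V] [DecidableEq V] [Fintype ι] [DecidableEq ι] (C : Cfg V ι)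
    {g h : V → Fin 3} (hle : g ≤ h)
    (hev : 2 ≤ #((C.sep g \ C.sep h) ∪ (C.sep h \ C.sep g))) :
    C.Phi g + 2 ≤ C.Phi h := by
  obtain ⟨ev, hE⟩ : ∃ ev, ev = (C.sep g \ C.sep h) ∪ (C.sep h \ C.sep g) := ⟨_, rfl⟩
  rw [← hE] at hev
  rw [Phi_eq, Phi_eq]
  have h1 := sum_le_sum (fun v (_ : v ∈ (univ : Finset V)) => pt_step C hle ev hE v)
  rw [sum_add_distrib] at h1
  obtain ⟨q, hq⟩ : ∃ q : V → ℕ, q = fun v =>
      (if g v = h v then 0 else #(ev.filter (fun e => C.s e = v ∨ C.t e = v))) := ⟨_, rfl⟩
  have h2 : 2 ≤ ∑ v, min 2 (q v) := by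
    have hsub : ev ⊆ univ.biUnion (fun v : V =>
        if g v = h v then ∅ else ev.filter (fun e => C.s e = v ∨ C.t e = v)) := by
      intro e he
      rw [mem_biUnion]
      have hne : ¬ (g (C.s e) = h (C.s e) ∧ g (C.t e) = h (C.t e)) := by
        rintro ⟨e1, e2⟩
        have h3 : e ∈ C.sep g ↔ e ∈ C.sep h := by
          rw [mem_sep, mem_sep, e1, e2]
        rw [hE, mem_union, mem_sdiff, mem_sdiff] at he
        tauto
      by_cases hs : g (C.s e) = h (C.s e)
      · have ht : ¬ g (C.t e) = h (C.t e) := fun ht => hne ⟨hs, ht⟩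
        refine ⟨C.t e, mem_univ _, ?_⟩
        rw [if_neg ht, mem_filter]
        exact ⟨he, Or.inr rfl⟩
      · refine ⟨C.s e, mem_univ _, ?_⟩
        rw [if_neg hs, mem_filter]
        exact ⟨he, Or.inl rfl⟩
    have hcard : ev.card ≤ ∑ v, q v := by
      refine (card_le_card hsub).trans (card_biUnion_le.trans (sum_le_sum ?_))
      intro v _
      rw [hq]
      beta_reduce
      split_ifs
      · simp
      · exact le_rfl
    by_cases hbig : ∃ v, 2 ≤ q v
    · obtain ⟨v, hv⟩ := hbig
      have h3 : min 2 (q v) ≤ ∑ v, min 2 (q v) :=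
        single_le_sum (f := fun v => min 2 (q v)) (fun _ _ => Nat.zero_le _) (mem_univ v)
      omega
    · push Not at hbig
      have h3 : ∑ v, min 2 (q v) = ∑ v, q v := by
        apply sum_congr rfl
        intro v _
        have := hbig v
        omega
      omega
  rw [hq] at h2
  beta_reduce at h2
  omega

end Pool.Agent.JT71
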