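import Pool.Agent.JT71.Tree
import Pool.Agent.JT71.Phi

/-!
# The potential bound

For `Y ∈ B` let `below Y` be the set of `Z ∈ B` with `Z = Y` or `lt Z Y`, `n Y` its number of
elements, `Ever Y` the set of vertices `v` with `g Z v = 2` for some `Z ∈ below Y`, and
`T Y = 2 * Phi (g Y) + ∑ v ∈ Ever Y, (deg v - 4)`.

Claim: `4 * n Y + 20 ≤ T Y` for all `Y ∈ B`, by induction on `n Y`.  Write `τ v = min (deg v) 4`,
`σ v = deg v - 4`, so `deg v = τ v + σ v`.  Let `X_1, ..., X_l` be the maximal elements of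
`{Z ∈ B | lt Z Y}`.

* `l = 0`: `n Y = 1` and `T Y ≥ ∑ v ∈ side (g Y) 2, (2 τ v + σ v) ≥ ∑ v ∈ side (g Y) 2, deg v
  ≥ #(sep (g Y)) ≥ 72`.
* `l = 1`, `X = X_1`: `n Y = n X + 1`, `Ever X ⊆ Ever Y`.
  If `g X ≤ g Y`: `T Y ≥ T X + 4` by `hstrong`.
  Otherwise, `T Y ≥ T X + 60`: let `core = {v | g X v = 0 ∧ g Y v = 2}`.  By `sepa` all vertices
  of side `2` of `g X` are in side `2` or in the wall of `g Y`, and the wall has at most one vertex,
  so `Phi (g Y) ≥ ∑ v ∈ side (g X) 2, τ v - 4 + ∑ v ∈ core, τ v` and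
  `Phi (g X) ≤ ∑ v ∈ side (g X) 2, τ v + 2`.  `core` is disjoint from `Ever X` (`sepa` for
  `Z` below `X`) and contained in `Ever Y`.
  So `T Y ≥ T X - 12 + ∑ v ∈ core, (2 τ v + σ v) ≥ T X - 12 + 72` by `weak`.
* `l ≥ 2`: the sets `below X_i` are disjoint (`forest`, maximality) with union `below Y \ {Y}`, so
  `n Y = 1 + ∑ n X_i`.  Elements of different `below X_i` are not comparable, so by `tri` the sets
  `Ever X_i` are disjoint.  As above
  `Phi (g Y) ≥ ∑_i ∑ v ∈ side (g X_i) 2, τ v - 4 ≥ ∑_i (Phi (g X_i) - 2) - 4`, so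
  `T Y ≥ ∑_i T X_i - 4 l - 8 ≥ 4 (n Y - 1) + 20 l - 4 l - 8 ≥ 4 n Y + 20`.

Finally `n top = #B`, `Phi (g top) ≤ ∑ v, τ v + 2`.
-/

namespace Pool.Agent.JT71

open Finset

variable {V ι : Type*}

section

variable [Fintype V] [DecidableEq V] [Fintype ι] {C : Cfg V ι} {B : Finset (V → Fin 3)}

open Classical in
/-- the elements of `B` that are `Y` or below `Y` -/
private noncomputable def blw (T : TreeData C B) (Y : V → Fin 3) : Finset (V → Fin 3) :=
  B.filter (fun Z => Z = Y ∨ T.lt Z Y)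

open Classical in
/-- the vertices that are in side `2` of some element below `Y` -/
private noncomputable def evr (T : TreeData C B) (Y : V → Fin 3) : Finset V :=
  univ.filter (fun v => ∃ Z ∈ blw T Y, T.g Z v = 2)

open Classical in
/-- the maximal elements strictly below `Y` -/
private noncomputable def mxm (T : TreeData C B) (Y : V → Fin 3) : Finset (V → Fin 3) :=
  B.filter (fun X => T.lt X Y ∧ ∀ Z ∈ B, T.lt Z Y → ¬ T.lt X Z)

private lemma mem_blw {T : TreeData C B} {Y Z : V → Fin 3} :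
    Z ∈ blw T Y ↔ Z ∈ B ∧ (Z = Y ∨ T.lt Z Y) := by
  classical
  simp [blw]

private lemma mem_evr {T : TreeData C B} {Y : V → Fin 3} {v : V} :
    v ∈ evr T Y ↔ ∃ Z ∈ blw T Y, T.g Z v = 2 := by
  classical
  simp [evr]

private lemma mem_mxm {T : TreeData C B} {Y X : V → Fin 3} :
    X ∈ mxm T Y ↔ X ∈ B ∧ T.lt X Y ∧ ∀ Z ∈ B, T.lt Z Y → ¬ T.lt X Z := by
  classical
  simp [mxm]

private lemma self_blw (T : TreeData C B) {Y : V → Fin 3} (hY : Y ∈ B) : Y ∈ blw T Y :=
  mem_blw.2 ⟨hY, Or.inl rfl⟩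

private lemma blw_trans (T : TreeData C B) {X Y Z : V → Fin 3} (hY : Y ∈ B) (hX : X ∈ B)
    (h : T.lt X Y) (hZ : Z ∈ blw T X) : T.lt Z Y := by
  obtain ⟨hZB, rfl | h1⟩ := mem_blw.1 hZ
  · exact h
  · exact T.trans _ hZB _ hX _ hY h1 h

private lemma blw_ssub (T : TreeData C B) {X Y : V → Fin 3} (hY : Y ∈ B) (hX : X ∈ B)
    (h : T.lt X Y) : #(blw T X) < #(blw T Y) := by
  apply card_lt_card
  rw [ssubset_iff_of_subset]
  · refine ⟨Y, self_blw T hY, ?_⟩
    intro hc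
    exact T.irrefl Y hY (blw_trans T hY hX h hc)
  · intro Z hZ
    exact mem_blw.2 ⟨(mem_blw.1 hZ).1, Or.inr (blw_trans T hY hX h hZ)⟩

private lemma exists_mxm (T : TreeData C B) {Y Z : V → Fin 3} (hZ : Z ∈ B)
    (h : T.lt Z Y) : ∃ X ∈ mxm T Y, Z ∈ blw T X := by
  classical
  have hne : (B.filter (fun W => T.lt W Y ∧ (Z = W ∨ T.lt Z W))).Nonempty :=
    ⟨Z, by simp [hZ, h]⟩
  obtain ⟨X, hX, hmax⟩ := exists_max_image _ (fun W => #(blw T W)) hne
  rw [mem_filter] at hX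
  obtain ⟨hXB, hXY, hZX⟩ := hX
  refine ⟨X, mem_mxm.2 ⟨hXB, hXY, ?_⟩, mem_blw.2 ⟨hZ, hZX⟩⟩
  intro W hW hWY hXW
  have h1 := blw_ssub T hW hXB hXW
  have h2 := hmax W (by
    rw [mem_filter]
    refine ⟨hW, hWY, Or.inr ?_⟩
    rcases hZX with rfl | h3
    · exact hXW
    · exact T.trans _ hZ _ hXB _ hW h3 hXW)
  omega

private lemma mxm_disj (T : TreeData C B) {Y X X' Z : V → Fin 3} (hX : X ∈ mxm T Y)
    (hX' : X' ∈ mxm T Y) (hne : X ≠ X') (hZ : Z ∈ blw T X) (hZ' : Z ∈ blw T X') : False := by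
  obtain ⟨hXB, hXY, hXm⟩ := mem_mxm.1 hX
  obtain ⟨hXB', hXY', hXm'⟩ := mem_mxm.1 hX'
  obtain ⟨hZB, h1⟩ := mem_blw.1 hZ
  obtain ⟨-, h2⟩ := mem_blw.1 hZ'
  rcases h1 with rfl | h1
  · rcases h2 with rfl | h2
    · exact hne rfl
    · exact hXm _ hXB' hXY' h2
  · rcases h2 with rfl | h2
    · exact hXm' _ hXB hXY h1
    · rcases T.forest _ hZB _ hXB _ hXB' h1 h2 hne with h3 | h3
      · exact hXm _ hXB' hXY' h3
      · exact hXm' _ hXB hXY h3

private lemma mxm_incomp (T : TreeData C B) {Y X X' Z Z' : V → Fin 3} (hX : X ∈ mxm T Y)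
    (hX' : X' ∈ mxm T Y) (hne : X ≠ X') (hZ : Z ∈ blw T X) (hZ' : Z' ∈ blw T X') :
    ∀ v, ¬ (T.g Z v = 2 ∧ T.g Z' v = 2) := by
  have hZB := (mem_blw.1 hZ).1
  have hZB' := (mem_blw.1 hZ').1
  have hXB := (mem_mxm.1 hX).1
  have hXB' := (mem_mxm.1 hX').1
  have hne' : Z ≠ Z' := by
    rintro rfl
    exact mxm_disj T hX hX' hne hZ hZ'
  rcases T.tri Z hZB Z' hZB' hne' with h | h | h
  · exfalso
    refine mxm_disj T hX hX' hne hZ (mem_blw.2 ⟨hZB, Or.inr ?_⟩)
    rcases (mem_blw.1 hZ').2 with rfl | h3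
    · exact h
    · exact T.trans _ hZB _ hZB' _ hXB' h h3
  · exfalso
    refine mxm_disj T hX hX' hne (mem_blw.2 ⟨hZB', Or.inr ?_⟩) hZ'
    rcases (mem_blw.1 hZ).2 with rfl | h3
    · exact h
    · exact T.trans _ hZB' _ hZB _ hXB h h3
  · exact h

/-- the number of elements below `Y` -/
private lemma card_blw (T : TreeData C B) {Y : V → Fin 3} (hY : Y ∈ B) :
    #(blw T Y) = 1 + ∑ X ∈ mxm T Y, #(blw T X) := by
  classical
  have h1 : blw T Y = insert Y ((mxm T Y).biUnion (blw T)) := by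
    ext Z
    rw [mem_insert, mem_biUnion]
    constructor
    · intro hZ
      obtain ⟨hZB, rfl | h⟩ := mem_blw.1 hZ
      · exact Or.inl rfl
      · exact Or.inr (exists_mxm T hZB h)
    · rintro (rfl | ⟨X, hX, hZ⟩)
      · exact self_blw T hY
      · obtain ⟨hXB, hXY, -⟩ := mem_mxm.1 hX
        exact mem_blw.2 ⟨(mem_blw.1 hZ).1, Or.inr (blw_trans T hY hXB hXY hZ)⟩
  have h2 : Y ∉ (mxm T Y).biUnion (blw T) := by
    rw [mem_biUnion]
    rintro ⟨X, hX, hZ⟩
    obtain ⟨hXB, hXY, -⟩ := mem_mxm.1 hX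
    exact T.irrefl Y hY (blw_trans T hY hXB hXY hZ)
  rw [h1, card_insert_of_notMem h2, card_biUnion, add_comm]
  intro X hX X' hX' hne
  show Disjoint (blw T X) (blw T X')
  rw [disjoint_left]
  intro Z hZ hZ'
  exact mxm_disj T hX hX' hne hZ hZ'

private lemma sum_evr (T : TreeData C B) {Y : V → Fin 3} (hY : Y ∈ B) (f : V → ℕ) :
    ∑ X ∈ mxm T Y, ∑ v ∈ evr T X, f v ≤ ∑ v ∈ evr T Y, f v := by
  classical
  rw [← sum_biUnion]
  · apply sum_le_sum_of_subset
    intro v hv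
    rw [mem_biUnion] at hv
    obtain ⟨X, hX, hv⟩ := hv
    obtain ⟨hXB, hXY, -⟩ := mem_mxm.1 hX
    obtain ⟨Z, hZ, hZv⟩ := mem_evr.1 hv
    exact mem_evr.2 ⟨Z, mem_blw.2 ⟨(mem_blw.1 hZ).1, Or.inr (blw_trans T hY hXB hXY hZ)⟩, hZv⟩
  · intro X hX X' hX' hne
    show Disjoint (evr T X) (evr T X')
    rw [disjoint_left]
    intro v hv hv'
    obtain ⟨Z, hZ, hZv⟩ := mem_evr.1 hv
    obtain ⟨Z', hZ', hZv'⟩ := mem_evr.1 hv'
    exact mxm_incomp T hX hX' hne hZ hZ' v ⟨hZv, hZv'⟩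

omit [DecidableEq V] in
private lemma mem_side {f : V → Fin 3} {a : Fin 3} {v : V} : v ∈ side f a ↔ f v = a := by
  simp [side]

private lemma let_ne_zero : ∀ a : Fin 3, a ≠ 0 → a = 2 ∨ a = 1 := by decide

/-- the sides `2` of the maximal elements -/
private lemma sum_side (T : TreeData C B) {Y : V → Fin 3} (hY : Y ∈ B)
    (hwall : #(side (T.g Y) 1) ≤ 1) (f : V → ℕ) (hf : ∀ v, f v ≤ 4) (K : Finset V)
    (hK : ∀ v ∈ K, T.g Y v = 2) (hK' : ∀ X ∈ mxm T Y, ∀ v ∈ K, T.g X v ≠ 2) :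
    ∑ X ∈ mxm T Y, ∑ v ∈ side (T.g X) 2, f v + ∑ v ∈ K, f v ≤ ∑ v ∈ side (T.g Y) 2, f v + 4 := by
  classical
  rw [← sum_biUnion]
  · rw [← sum_union]
    · have h1 : ∑ v ∈ side (T.g Y) 2, f v + 4 ≥ ∑ v ∈ side (T.g Y) 2 ∪ side (T.g Y) 1, f v := by
        rw [sum_union]
        · have h2 : ∑ v ∈ side (T.g Y) 1, f v ≤ #(side (T.g Y) 1) * 4 :=
            sum_le_card_nsmul _ _ _ (fun v _ => hf v)
          omega
        · rw [disjoint_left]
          intro v hv hv'
          rw [mem_side] at hv hv'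
          rw [hv] at hv'
          exact absurd hv' (by decide)
      refine le_trans (sum_le_sum_of_subset ?_) h1
      intro v hv
      rw [mem_union, mem_biUnion] at hv
      rw [mem_union, mem_side, mem_side]
      rcases hv with ⟨X, hX, hv⟩ | hv
      · rw [mem_side] at hv
        obtain ⟨hXB, hXY, -⟩ := mem_mxm.1 hX
        exact let_ne_zero _ (fun h0 => T.sepa X hXB Y hY hXY v ⟨hv, h0⟩)
      · exact Or.inl (hK v hv)
    · rw [disjoint_left]
      intro v hv hv'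
      rw [mem_biUnion] at hv
      obtain ⟨X, hX, hv⟩ := hv
      rw [mem_side] at hv
      exact hK' X hX v hv' hv
  · intro X hX X' hX' hne
    show Disjoint (side (T.g X) 2) (side (T.g X') 2)
    rw [disjoint_left]
    intro v hv hv'
    rw [mem_side] at hv hv'
    exact mxm_incomp T hX hX' hne (self_blw T (mem_mxm.1 hX).1) (self_blw T (mem_mxm.1 hX').1) v
      ⟨hv, hv'⟩

private lemma Phi_ge (C : Cfg V ι) (f : V → Fin 3) :
    ∑ v ∈ side f 2, min (C.deg v) 4 ≤ C.Phi f := by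
  unfold Cfg.Phi
  omega

private lemma Phi_le (C : Cfg V ι) (f : V → Fin 3) (hw : #(side f 1) ≤ 1) :
    C.Phi f ≤ ∑ v ∈ side f 2, min (C.deg v) 4 + 2 := by
  unfold Cfg.Phi
  have h2 : ∑ v ∈ side f 1, min 2 (C.eN v f) ≤ #(side f 1) * 2 :=
    sum_le_card_nsmul _ _ _ (fun v _ => min_le_left _ _)
  omega

omit [Fintype V] in
private lemma deg_split (C : Cfg V ι) (K : Finset V) :
    ∑ v ∈ K, C.deg v = ∑ v ∈ K, min (C.deg v) 4 + ∑ v ∈ K, (C.deg v - 4) := by
  rw [← sum_add_distrib]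
  apply sum_congr rfl
  intro v _
  omega

private lemma bound_aux (T : TreeData C B)
    (hsep : ∀ Y ∈ B, 72 ≤ #(C.sep (T.g Y))) (hwall : ∀ Y ∈ B, #(side (T.g Y) 1) ≤ 1)
    (hstrong : ∀ X ∈ B, ∀ Y ∈ B, T.lt X Y → T.g X ≤ T.g Y →
      C.Phi (T.g X) + 2 ≤ C.Phi (T.g Y)) (n : ℕ) : ∀ Y ∈ B, #(blw T Y) = n →
    4 * #(blw T Y) + 20 ≤ 2 * C.Phi (T.g Y) + ∑ v ∈ evr T Y, (C.deg v - 4) := by
  classical
  induction n using Nat.strong_induction_on with
  | _ n ih =>
    intro Y hY hn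
    have hcard := card_blw T hY
    have hev := sum_evr T hY (fun v => C.deg v - 4)
    have hPge := Phi_ge C (T.g Y)
    have hIH : ∀ X ∈ mxm T Y,
        4 * #(blw T X) + 20 ≤ 2 * C.Phi (T.g X) + ∑ v ∈ evr T X, (C.deg v - 4) := by
      intro X hX
      obtain ⟨hXB, hXY, -⟩ := mem_mxm.1 hX
      have h1 := blw_ssub T hY hXB hXY
      exact ih _ (by omega) X hXB rfl
    rcases Nat.lt_trichotomy #(mxm T Y) 1 with hl | hl | hl
    · -- no maximal element
      have h0 : mxm T Y = ∅ := by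
        rw [← card_eq_zero]
        omega
      rw [h0, sum_empty] at hcard
      have h1 := hsep Y hY
      have h2 := sep_le_sum_deg_two C (T.g Y)
      have h3 := deg_split C (side (T.g Y) 2)
      have h4 : ∑ v ∈ side (T.g Y) 2, (C.deg v - 4) ≤ ∑ v ∈ evr T Y, (C.deg v - 4) := by
        apply sum_le_sum_of_subset
        intro v hv
        rw [mem_side] at hv
        exact mem_evr.2 ⟨Y, self_blw T hY, hv⟩
      omega
    · -- exactly one
      obtain ⟨X, hX⟩ := card_eq_one.1 hl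
      have hXm : X ∈ mxm T Y := by
        rw [hX]
        exact mem_singleton_self X
      obtain ⟨hXB, hXY, -⟩ := mem_mxm.1 hXm
      have h1 := hIH X hXm
      rw [hX, sum_singleton] at hcard hev
      by_cases hle : T.g X ≤ T.g Y
      · have h2 := hstrong X hXB Y hY hXY hle
        omega
      · have h2 := T.weak X hXB Y hY hXY hle
        have h3 := sum_side T hY (hwall Y hY) (fun v => min (C.deg v) 4)
          (fun v => min_le_right _ _) (univ.filter (fun v => T.g X v = 0 ∧ T.g Y v = 2))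
          (by
            intro v hv
            rw [mem_filter] at hv
            exact hv.2.2)
          (by
            intro X' hX' v hv
            rw [hX, mem_singleton] at hX'
            subst hX'
            rw [mem_filter] at hv
            rw [hv.2.1]
            decide)
        rw [hX, sum_singleton] at h3
        have h4 := Phi_le C (T.g X) (hwall X hXB)
        have h5 := deg_split C (univ.filter (fun v => T.g X v = 0 ∧ T.g Y v = 2))
        have h6 : ∑ v ∈ evr T X, (C.deg v - 4) +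
            ∑ v ∈ univ.filter (fun v => T.g X v = 0 ∧ T.g Y v = 2), (C.deg v - 4) ≤
            ∑ v ∈ evr T Y, (C.deg v - 4) := by
          rw [← sum_union]
          · apply sum_le_sum_of_subset
            intro v hv
            rw [mem_union] at hv
            rcases hv with hv | hv
            · obtain ⟨Z, hZ, hZv⟩ := mem_evr.1 hv
              exact mem_evr.2 ⟨Z, mem_blw.2 ⟨(mem_blw.1 hZ).1,
                Or.inr (blw_trans T hY hXB hXY hZ)⟩, hZv⟩
            · rw [mem_filter] at hv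
              exact mem_evr.2 ⟨Y, self_blw T hY, hv.2.2⟩
          · rw [disjoint_left]
            intro v hv hv'
            rw [mem_filter] at hv'
            obtain ⟨Z, hZ, hZv⟩ := mem_evr.1 hv
            obtain ⟨hZB, rfl | hZX⟩ := mem_blw.1 hZ
            · rw [hv'.2.1] at hZv
              exact absurd hZv (by decide)
            · exact T.sepa Z hZB X hXB hZX v ⟨hZv, hv'.2.1⟩
        omega
    · -- at least two
      have h3 := sum_side T hY (hwall Y hY) (fun v => min (C.deg v) 4)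
          (fun v => min_le_right _ _) ∅ (by simp) (by simp)
      rw [sum_empty, add_zero] at h3
      have h4 : ∑ X ∈ mxm T Y, (4 * #(blw T X) + 16) ≤
          2 * ∑ X ∈ mxm T Y, ∑ v ∈ side (T.g X) 2, min (C.deg v) 4 +
          ∑ X ∈ mxm T Y, ∑ v ∈ evr T X, (C.deg v - 4) := by
        rw [mul_sum, ← sum_add_distrib]
        apply sum_le_sum
        intro X hX
        have h5 := hIH X hX
        have h6 := Phi_le C (T.g X) (hwall X (mem_mxm.1 hX).1)
        omega
      rw [sum_add_distrib, ← mul_sum, sum_const, smul_eq_mul] at h4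
      omega

end

theorem tree_bound [Fintype V] [DecidableEq V] [Fintype ι] (C : Cfg V ι)
    (B : Finset (V → Fin 3)) (T : TreeData C B)
    (hsep : ∀ Y ∈ B, 72 ≤ #(C.sep (T.g Y))) (hwall : ∀ Y ∈ B, #(side (T.g Y) 1) ≤ 1)
    (hstrong : ∀ X ∈ B, ∀ Y ∈ B, T.lt X Y → T.g X ≤ T.g Y →
      C.Phi (T.g X) + 2 ≤ C.Phi (T.g Y)) :
    4 * #B + 16 ≤ 2 * ∑ v, min (C.deg v) 4 + ∑ v, (C.deg v - 4) := by
  classical
  have h1 := bound_aux T hsep hwall hstrong _ T.top T.top_mem rfl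
  have h2 : blw T T.top = B := by
    ext Z
    rw [mem_blw]
    constructor
    · exact fun h => h.1
    · intro h
      refine ⟨h, ?_⟩
      by_cases hZ : Z = T.top
      · exact Or.inl hZ
      · exact Or.inr (T.le_top Z h hZ)
  rw [h2] at h1
  have h3 := Phi_le C (T.g T.top) (hwall _ T.top_mem)
  have h4 : ∑ v ∈ side (T.g T.top) 2, min (C.deg v) 4 ≤ ∑ v, min (C.deg v) 4 :=
    sum_le_sum_of_subset (subset_univ _)
  have h5 : ∑ v ∈ evr T T.top, (C.deg v - 4) ≤ ∑ v, (C.deg v - 4) :=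
    sum_le_sum_of_subset (subset_univ _)
  omega

end Pool.Agent.JT71
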