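import Pool.Agent.JT71.Basic

/-!
# The number of small members

Let `L` be a set of pairwise non-crossing tight bi-sets.  A small member `X` has a side with at
most two vertices; by `sep_ge` (a tight bi-set has `cut ≥ 71`) and `sep_le_sum_deg_*` this side has
degree sum at least `72`, so it contains a vertex of degree at least `36`.  Let `U` be the set of
vertices of degree at least `36`.

For `v ∈ U` there are at most `4` members `X` with `X v = 2` and `#(side X 2) ≤ 2`: two such
members `X, Y` have `X v = Y v = 2`, and some `u` has `X u = Y u = 0`, since at most `3 + 3`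
vertices have a nonzero letter in `X` or in `Y`, and `7 ≤ card V`.  As they do not cross, they are
comparable, so `X ↦ ∑ u, (X u : ℕ)` (which is `2 * #(side X 2) + #(side X 1)`, in `{2, 3, 4, 5}`)
is injective on these members.  In the same way there are at most `4` members with `X v = 0` and
`#(side X 0) ≤ 2`.  Hence the number of small members is at most `8 * #U`, and
`4 * 8 * #U ≤ ∑ v ∈ U, (C.deg v - 4)`.
-/

namespace Pool.Agent.JT71

open Finset

variable {V ι : Type*}

private theorem sum_val [Fintype V] (X : V → Fin 3) :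
    ∑ u, (X u).val = 2 * #(side X 2) + #(side X 1) := by
  unfold side
  simp only [card_filter, mul_sum]
  rw [← sum_add_distrib]
  refine sum_congr rfl fun u _ => ?_
  have key : ∀ a : Fin 3, a.val = 2 * (if a = 2 then 1 else 0) + (if a = 1 then 1 else 0) := by
    decide
  exact key (X u)

theorem chain_count_two [Fintype V] [DecidableEq V] (hn : 7 ≤ Fintype.card V)
    (L : Finset (V → Fin 3)) (hw : ∀ X ∈ L, #(side X 1) ≤ 1)
    (hc : ∀ X ∈ L, ∀ Y ∈ L, ¬ Cr X Y) (v : V) :
    #(L.filter (fun X => X v = 2 ∧ #(side X 2) ≤ 2)) ≤ 4 := by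
  have hmaps : ∀ X ∈ L.filter (fun X => X v = 2 ∧ #(side X 2) ≤ 2),
      ∑ u, (X u).val ∈ Finset.Icc 2 5 := by
    intro X hX
    rw [mem_filter] at hX
    obtain ⟨h1, h2, h3⟩ := hX
    have h4 := hw X h1
    have h5 : 1 ≤ #(side X 2) := by
      rw [Nat.one_le_iff_ne_zero, ← Nat.pos_iff_ne_zero, card_pos]
      exact ⟨v, by simp [side, h2]⟩
    rw [sum_val, mem_Icc]
    omega
  have hinj : ∀ X ∈ L.filter (fun X => X v = 2 ∧ #(side X 2) ≤ 2),
      ∀ Y ∈ L.filter (fun X => X v = 2 ∧ #(side X 2) ≤ 2),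
      ∑ u, (X u).val = ∑ u, (Y u).val → X = Y := by
    intro X hX Y hY he
    rw [mem_filter] at hX hY
    obtain ⟨h1, h2, h3⟩ := hX
    obtain ⟨g1, g2, g3⟩ := hY
    have hz : ∃ u, X u = 0 ∧ Y u = 0 := by
      by_contra hno
      have hcov : (univ : Finset V) ⊆ (side X 2 ∪ side X 1) ∪ (side Y 2 ∪ side Y 1) := by
        intro u _
        simp only [side, mem_union, mem_filter, mem_univ, true_and]
        by_contra hu
        apply hno
        refine ⟨u, ?_, ?_⟩
        · have key : ∀ a : Fin 3, ¬ a = 2 → ¬ a = 1 → a = 0 := by decide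
          exact key _ (fun h => hu (Or.inl (Or.inl h))) (fun h => hu (Or.inl (Or.inr h)))
        · have key : ∀ a : Fin 3, ¬ a = 2 → ¬ a = 1 → a = 0 := by decide
          exact key _ (fun h => hu (Or.inr (Or.inl h))) (fun h => hu (Or.inr (Or.inr h)))
      have hcard := card_le_card hcov
      rw [card_univ] at hcard
      have a1 := card_union_le (side X 2 ∪ side X 1) (side Y 2 ∪ side Y 1)
      have a2 := card_union_le (side X 2) (side X 1)
      have a3 := card_union_le (side Y 2) (side Y 1)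
      have a4 := hw X h1
      have a5 := hw Y g1
      omega
    have hcomp : X ≤ Y ∨ Y ≤ X := by
      by_contra hno
      rw [not_or] at hno
      exact hc X h1 Y g1 ⟨⟨v, h2, g2⟩, hz, hno.1, hno.2⟩
    rcases hcomp with hle | hle
    · have := (sum_eq_sum_iff_of_le (s := univ) (f := fun u => (X u).val)
        (g := fun u => (Y u).val) (fun u _ => hle u)).1 he
      funext u
      exact Fin.ext (this u (mem_univ u))
    · have := (sum_eq_sum_iff_of_le (s := univ) (f := fun u => (Y u).val)
        (g := fun u => (X u).val) (fun u _ => hle u)).1 he.symm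
      funext u
      exact (Fin.ext (this u (mem_univ u))).symm
  have hcard := card_le_card_of_injOn (fun X : V → Fin 3 => ∑ u, (X u).val)
    (fun X hX => hmaps X hX) (fun X hX Y hY h => hinj X hX Y hY h)
  simpa using hcard

theorem chain_count_zero [Fintype V] [DecidableEq V] (hn : 7 ≤ Fintype.card V)
    (L : Finset (V → Fin 3)) (hw : ∀ X ∈ L, #(side X 1) ≤ 1)
    (hc : ∀ X ∈ L, ∀ Y ∈ L, ¬ Cr X Y) (v : V) :
    #(L.filter (fun X => X v = 0 ∧ #(side X 0) ≤ 2)) ≤ 4 := by
  have hrinj : Function.Injective (rv : (V → Fin 3) → (V → Fin 3)) := by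
    intro X Y h
    rw [← rv_rv X, h, rv_rv]
  have h1 : ∀ X ∈ L.image rv, #(side X 1) ≤ 1 := by
    intro X hX
    rw [mem_image] at hX
    obtain ⟨Y, hY, rfl⟩ := hX
    rw [side_rv_one]
    exact hw Y hY
  have h2 : ∀ X ∈ L.image rv, ∀ Y ∈ L.image rv, ¬ Cr X Y := by
    intro X hX Y hY hcr
    rw [mem_image] at hX hY
    obtain ⟨X', hX', rfl⟩ := hX
    obtain ⟨Y', hY', rfl⟩ := hY
    obtain ⟨⟨a, ha, ha'⟩, ⟨b, hb, hb'⟩, h3, h4⟩ := hcr
    rw [rv_eq_two] at ha ha'
    rw [rv_eq_zero] at hb hb'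
    rw [rv_le_rv] at h3 h4
    exact hc X' hX' Y' hY' ⟨⟨b, hb, hb'⟩, ⟨a, ha, ha'⟩, h4, h3⟩
  have h3 := chain_count_two hn (L.image rv) h1 h2 v
  refine le_trans ?_ h3
  refine card_le_card_of_injOn rv ?_ (hrinj.injOn)
  intro X hX
  have hX' := mem_filter.1 (mem_coe.1 hX)
  refine mem_coe.2 (mem_filter.2 ⟨mem_image_of_mem _ hX'.1, ?_, ?_⟩)
  · rw [rv_eq_two]
    exact hX'.2.1
  · rw [side_rv_two]
    exact hX'.2.2

open Classical in
theorem small_count [Fintype V] [DecidableEq V] [Fintype ι] (C : Cfg V ι)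
    (hn : 7 ≤ Fintype.card V)
    (L : Finset (V → Fin 3)) (hL : ∀ X ∈ L, C.Tight 2 71 X)
    (hc : ∀ X ∈ L, ∀ Y ∈ L, ¬ Cr X Y) :
    4 * #(L.filter (fun X => ¬ Big X)) ≤ ∑ v, (C.deg v - 4) := by
  have hw : ∀ X ∈ L, #(side X 1) ≤ 1 := by
    intro X hX
    have := (hL X hX).2.2.1
    omega
  have hsep : ∀ X ∈ L, 72 ≤ #(C.sep X) := by
    intro X hX
    refine sep_ge C X 71 (by norm_num) ?_
    rw [(hL X hX).2.2.2]
    have h1 : (#(side X 1) : ℝ) ≤ 1 := by exact_mod_cast hw X hX
    push_cast
    linarith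
  set U : Finset V := univ.filter (fun v => 36 ≤ C.deg v) with hU
  set F2 : V → Finset (V → Fin 3) := fun v => L.filter (fun X => X v = 2 ∧ #(side X 2) ≤ 2)
    with hF2
  set F0 : V → Finset (V → Fin 3) := fun v => L.filter (fun X => X v = 0 ∧ #(side X 0) ≤ 2)
    with hF0
  have hsub : L.filter (fun X => ¬ Big X) ⊆ U.biUnion (fun v => F2 v ∪ F0 v) := by
    intro X hX
    rw [mem_filter] at hX
    obtain ⟨hXL, hXb⟩ := hX
    rw [mem_biUnion]
    have hcase : #(side X 2) ≤ 2 ∨ #(side X 0) ≤ 2 := by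
      unfold Big at hXb
      omega
    rcases hcase with h | h
    · have h1 := (hsep X hXL).trans (sep_le_sum_deg_two C X)
      have h2 : ∃ v ∈ side X 2, 36 ≤ C.deg v := by
        by_contra hno
        push Not at hno
        have h3 : ∑ v ∈ side X 2, C.deg v ≤ ∑ _v ∈ side X 2, 35 :=
          sum_le_sum fun v hv => by have := hno v hv; omega
        rw [sum_const, smul_eq_mul] at h3
        omega
      obtain ⟨v, hv, hd⟩ := h2
      refine ⟨v, by simp [hU, hd], ?_⟩
      have hv2 : X v = 2 := by simpa [side] using hv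
      simp only [hF2, hF0, mem_union, mem_filter]
      exact Or.inl ⟨hXL, hv2, h⟩
    · have h1 := (hsep X hXL).trans (sep_le_sum_deg_zero C X)
      have h2 : ∃ v ∈ side X 0, 36 ≤ C.deg v := by
        by_contra hno
        push Not at hno
        have h3 : ∑ v ∈ side X 0, C.deg v ≤ ∑ _v ∈ side X 0, 35 :=
          sum_le_sum fun v hv => by have := hno v hv; omega
        rw [sum_const, smul_eq_mul] at h3
        omega
      obtain ⟨v, hv, hd⟩ := h2
      refine ⟨v, by simp [hU, hd], ?_⟩
      have hv2 : X v = 0 := by simpa [side] using hv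
      simp only [hF2, hF0, mem_union, mem_filter]
      exact Or.inr ⟨hXL, hv2, h⟩
  have hcard : #(L.filter (fun X => ¬ Big X)) ≤ 8 * #U := by
    refine (card_le_card hsub).trans ?_
    refine card_biUnion_le.trans ?_
    have h1 : ∑ v ∈ U, #(F2 v ∪ F0 v) ≤ ∑ _v ∈ U, 8 := by
      refine sum_le_sum fun v _ => ?_
      have h2 := chain_count_two hn L hw hc v
      have h3 := chain_count_zero hn L hw hc v
      have h4 := card_union_le (F2 v) (F0 v)
      simp only [hF2, hF0] at h4 ⊢
      omega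
    rw [sum_const, smul_eq_mul] at h1
    omega
  have hsum : 32 * #U ≤ ∑ v, (C.deg v - 4) := by
    have h1 : ∑ _v ∈ U, 32 ≤ ∑ v ∈ U, (C.deg v - 4) := by
      refine sum_le_sum fun v hv => ?_
      have : 36 ≤ C.deg v := by simpa [hU] using hv
      omega
    have h2 : ∑ v ∈ U, (C.deg v - 4) ≤ ∑ v, (C.deg v - 4) :=
      sum_le_univ_sum_of_nonneg (fun _ => Nat.zero_le _)
    rw [sum_const, smul_eq_mul] at h1
    omega
  omega

end Pool.Agent.JT71
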