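import Pool.Agent.JT71.CrossFree
import Pool.Agent.JT71.Small
import Pool.Agent.JT71.Event
import Pool.Agent.JT71.Forest

/-!
# The key lemma

Take `L` from `exists_crossfree_basis`, `B` its big members.  By `small_count`
`4 * #small ≤ ∑ v, (deg v - 4)`.  If `B` is nonempty, `tree_bound` gives
`4 * #B + 16 ≤ 2 * ∑ v, min (deg v) 4 + ∑ v, (deg v - 4)`; with
`min (deg v) 4 + (deg v - 4) = deg v` and `∑ v, deg v = 2 * card ι` this gives
`4 * #L + 16 ≤ 4 * card ι`.  If `B` is empty, `4 * #L ≤ ∑ v, deg v = 2 * card ι < 4 * card ι`.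
Conclude by `exists_dir`.  (The rows of `L` are linearly independent, so for different `X, Y` in
`L` the rows are neither equal nor opposite.)
-/

namespace Pool.Agent.JT71

open Finset

variable {V ι : Type*}

private theorem key_rows [Fintype V] [Fintype ι] (C : Cfg V ι) {L : Finset (V → Fin 3)}
    (hind : LinearIndependent ℝ (fun X : L => C.row X)) {X Y : V → Fin 3} (hX : X ∈ L)
    (hY : Y ∈ L) (hne : X ≠ Y) : C.row X ≠ C.row Y ∧ C.row X ≠ - C.row Y := by
  classical
  have hne' : (⟨X, hX⟩ : L) ≠ ⟨Y, hY⟩ := fun h => hne (congrArg Subtype.val h)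
  refine ⟨fun h => hne' (hind.injective h), fun h => ?_⟩
  rw [linearIndependent_iff'] at hind
  have h1 := hind {⟨X, hX⟩, ⟨Y, hY⟩} (fun _ => 1) (by
    rw [Finset.sum_pair hne', one_smul, one_smul]
    change C.row X + C.row Y = 0
    rw [h, neg_add_cancel]) ⟨X, hX⟩ (Finset.mem_insert_self _ _)
  exact one_ne_zero h1

theorem key_two [Fintype V] [DecidableEq V] [Fintype ι] [Nonempty ι] (C : Cfg V ι)
    (hn : 7 ≤ Fintype.card V) (h1 : C.H1 2 71) (h2 : C.H2 2 285) :
    ∃ d : ι → ℝ, d ≠ 0 ∧ ∀ X, C.Tight 2 71 X → ∑ e, C.row X e * d e = 0 := by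
  classical
  obtain ⟨L, hL, hcross, hind, hspan⟩ := exists_crossfree_basis C 2 71 h1
  apply exists_dir C 2 71 L hspan
  have hsmall := small_count C hn L hL hcross
  have hsplit := Finset.card_filter_add_card_filter_not (s := L) (fun X => Big X)
  have hdeg := sum_deg C
  have hpos : 0 < Fintype.card ι := Fintype.card_pos
  have hwall1 : ∀ Y ∈ L, #(side Y 1) ≤ 1 := fun Y hY => by
    have := (hL Y hY).2.2.1
    omega
  rcases (L.filter fun X => Big X).eq_empty_or_nonempty with hB | hB
  · rw [hB, Finset.card_empty, zero_add] at hsplit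
    have h3 : ∑ v, (C.deg v - 4) ≤ ∑ v, C.deg v := Finset.sum_le_sum fun v _ => Nat.sub_le _ _
    omega
  · have hBF : BigFam C (L.filter fun X => Big X) := by
      refine ⟨h1, h2, fun X hX => hL X (Finset.mem_filter.1 hX).1,
        fun X hX => (Finset.mem_filter.1 hX).2, fun X hX Y hY => ?_⟩
      exact hcross X (Finset.mem_filter.1 hX).1 Y (Finset.mem_filter.1 hY).1
    obtain ⟨T⟩ := exists_tree hBF hB
    have hbound := tree_bound C (L.filter fun X => Big X) T (by
      intro Y hY
      have hYL := (Finset.mem_filter.1 hY).1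
      have h3 : 72 ≤ #(C.sep Y) := by
        apply sep_ge C Y 71 (by norm_num)
        rw [(hL Y hYL).2.2.2]
        have h4 : (#(side Y 1) : ℝ) ≤ 1 := by exact_mod_cast hwall1 Y hYL
        push_cast
        linarith
      rcases T.g_or Y hY with h4 | h4
      · rwa [h4]
      · rwa [h4, sep_rv]) (by
      intro Y hY
      have hYL := (Finset.mem_filter.1 hY).1
      rcases T.g_or Y hY with h4 | h4
      · rw [h4]
        exact hwall1 Y hYL
      · rw [h4, side_rv_one]
        exact hwall1 Y hYL) (by
      intro X hX Y hY hlt hle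
      have hXL := (Finset.mem_filter.1 hX).1
      have hYL := (Finset.mem_filter.1 hY).1
      have hne : X ≠ Y := by
        intro h
        subst h
        exact T.irrefl X hX hlt
      obtain ⟨hr1, hr2⟩ := key_rows C hind hXL hYL hne
      exact phi_step C hle
        (two_events C (hL X hXL) (hL Y hYL) hr1 hr2 (T.g_or X hX) (T.g_or Y hY) hle))
    have h5 : ∑ v, min (C.deg v) 4 + ∑ v, (C.deg v - 4) = ∑ v, C.deg v := by
      rw [← Finset.sum_add_distrib]
      refine Finset.sum_congr rfl fun v _ => ?_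
      omega
    omega

end Pool.Agent.JT71
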