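import Mathlib

/-!
# A move along a kernel direction

`f j` are the slacks of finitely many inequalities, `g j` their derivatives along a direction.
Replacing `g` by `-g` we may assume `g j < 0` for some `j`; let `θ` be the minimum of
`f j / (- g j)` over the `j` with `g j < 0`.
-/

namespace Pool.Agent.JT71

private theorem lp_move_aux {J : Type*} [Fintype J] (f g : J → ℝ) (hf : ∀ j, 0 ≤ f j)
    (hg : ∀ j, f j = 0 → g j = 0) (hne : ∃ j, g j < 0) :
    ∃ θ : ℝ, (∀ j, 0 ≤ f j + θ * g j) ∧ (∀ j, f j = 0 → f j + θ * g j = 0) ∧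
      ∃ j, f j ≠ 0 ∧ f j + θ * g j = 0 := by
  classical
  obtain ⟨j1, hj1⟩ := hne
  obtain ⟨j0, hj0, hmin⟩ := Finset.exists_min_image (Finset.univ.filter (fun j => g j < 0))
    (fun j => f j / (- g j)) ⟨j1, by simp [hj1]⟩
  have hj0' : g j0 < 0 := by simpa using hj0
  have hθ : 0 ≤ f j0 / (- g j0) := div_nonneg (hf j0) (by linarith)
  refine ⟨f j0 / (- g j0), fun j => ?_, fun j hj => ?_, j0, ?_, ?_⟩
  · rcases lt_or_ge (g j) 0 with h | h
    · have h1 := hmin j (by simp [h])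
      have h2 : f j0 / (- g j0) ≤ f j / (- g j) := h1
      rw [le_div_iff₀ (by linarith)] at h2
      linarith
    · have := mul_nonneg hθ h
      linarith [hf j]
  · rw [hg j hj, hj]; simp
  · intro h
    have := hg j0 h
    linarith
  · have h3 : f j0 / (- g j0) * (- g j0) = f j0 := div_mul_cancel₀ _ (by linarith)
    linarith

theorem lp_move {J : Type*} [Fintype J] (f g : J → ℝ) (hf : ∀ j, 0 ≤ f j)
    (hg : ∀ j, f j = 0 → g j = 0) (hne : ∃ j, g j ≠ 0) :
    ∃ θ : ℝ, (∀ j, 0 ≤ f j + θ * g j) ∧ (∀ j, f j = 0 → f j + θ * g j = 0) ∧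
      ∃ j, f j ≠ 0 ∧ f j + θ * g j = 0 := by
  obtain ⟨j1, hj1⟩ := hne
  rcases lt_or_gt_of_ne hj1 with h | h
  · exact lp_move_aux f g hf hg ⟨j1, h⟩
  · obtain ⟨θ, h1, h2, j, h3, h4⟩ := lp_move_aux f (fun j => - g j) hf
      (fun j hj => by simp [hg j hj]) ⟨j1, by simpa using h⟩
    refine ⟨-θ, fun j => ?_, fun j hj => ?_, j, h3, ?_⟩
    · have := h1 j; linarith
    · have := h2 j hj; linarith
    · linarith

end Pool.Agent.JT71
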