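import Pool.Agent.JT71.Arcs
import Pool.Agent.JT71.LP
import Pool.Agent.JT71.Key

/-!
# The rounding argument

`KeyProp k w h`: for every configuration with `H1 k w` and `H2 k h` and at least one undecided edge
there is a nonzero direction orthogonal to all tight rows.
-/

namespace Pool.Agent.JT71

open Finset Pool.Agent.JT78

universe u

/-- the statement of the key lemma -/
def KeyProp (n₀ k w h : ℕ) : Prop :=
  ∀ (V ι : Type u) [Fintype V] [DecidableEq V] [Fintype ι] [Nonempty ι] (C : Cfg V ι),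
    n₀ ≤ Fintype.card V → C.H1 k w → C.H2 k h →
    ∃ d : ι → ℝ, d ≠ 0 ∧ ∀ X, C.Tight k w X → ∑ e, C.row X e * d e = 0

section round

variable {V : Type u} [Fintype V]

/-- the cut function as a function of the amounts -/
private def cutf {ι : Type*} [Fintype ι] (s t : ι → V) (y : ι → ℝ) (X : V → Fin 3) : ℝ :=
  ∑ e, ((cc (X (s e)) (X (t e)) : ℝ) * y e + (cc (X (t e)) (X (s e)) : ℝ) * (1 - y e))

/-- feasible amounts -/
private def Feas {ι : Type*} [Fintype ι] (s t : ι → V) (Q : V → V → Prop) (k w : ℕ)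
    (y : ι → ℝ) : Prop :=
  (∀ e, 0 ≤ y e ∧ y e ≤ 1) ∧ ∀ X : V → Fin 3, (∀ u v, Q u v → X u = 2 → X v ≠ 0) → Proper X →
    (w : ℝ) * ((k : ℝ) - (#(side X 1) : ℝ)) ≤ cutf s t y X

private theorem cutf_term_nonneg {ι : Type*} [Fintype ι] (s t : ι → V) (y : ι → ℝ)
    (hy : ∀ e, 0 ≤ y e ∧ y e ≤ 1) (X : V → Fin 3) (e : ι) :
    0 ≤ (cc (X (s e)) (X (t e)) : ℝ) * y e + (cc (X (t e)) (X (s e)) : ℝ) * (1 - y e) := by
  have h1 := (hy e).1
  have h2 := (hy e).2
  have h3 : (0 : ℝ) ≤ (cc (X (s e)) (X (t e)) : ℝ) := Nat.cast_nonneg _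
  have h4 : (0 : ℝ) ≤ (cc (X (t e)) (X (s e)) : ℝ) := Nat.cast_nonneg _
  have h5 : 0 ≤ 1 - y e := by linarith
  positivity

open Classical in
private theorem exists_integral {ι : Type u} [Fintype ι] (s t : ι → V)
    (hst : ∀ e, s e ≠ t e) (Q : V → V → Prop) (k w : ℕ)
    (key : ∀ C : Cfg V ι, C.s = s → C.t = t → C.Q = Q → C.H1 k w →
      ∃ d : ι → ℝ, d ≠ 0 ∧ ∀ X, C.Tight k w X → ∑ e, C.row X e * d e = 0)
    (y : ι → ℝ) (hy : Feas s t Q k w y) :
    ∃ y', Feas s t Q k w y' ∧ ∃ e, y' e = 0 ∨ y' e = 1 := by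
  let J := {X : V → Fin 3 // (∀ u v, Q u v → X u = 2 → X v ≠ 0) ∧ Proper X} ⊕ ι ⊕ ι
  let sl : (ι → ℝ) → J → ℝ := fun y j => match j with
    | Sum.inl X => cutf s t y X.1 - (w : ℝ) * ((k : ℝ) - (#(side X.1 1) : ℝ))
    | Sum.inr (Sum.inl e) => y e
    | Sum.inr (Sum.inr e) => 1 - y e
  have hfeas : ∀ y, Feas s t Q k w y ↔ ∀ j, 0 ≤ sl y j := by
    intro y
    constructor
    · rintro ⟨h1, h2⟩ (X | e | e)
      · have := h2 X.1 X.2.1 X.2.2
        change 0 ≤ cutf s t y X.1 - (w : ℝ) * ((k : ℝ) - (#(side X.1 1) : ℝ))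
        linarith
      · exact (h1 e).1
      · change 0 ≤ 1 - y e
        linarith [(h1 e).2]
    · intro h
      refine ⟨fun e => ⟨h (Sum.inr (Sum.inl e)), ?_⟩, fun X hX hp => ?_⟩
      · have := h (Sum.inr (Sum.inr e))
        change 0 ≤ 1 - y e at this
        linarith
      · have := h (Sum.inl ⟨X, hX, hp⟩)
        change 0 ≤ cutf s t y X - (w : ℝ) * ((k : ℝ) - (#(side X 1) : ℝ)) at this
        linarith
  suffices H : ∀ n, ∀ y, Feas s t Q k w y →
      Fintype.card J - #(univ.filter (fun j => sl y j = 0)) = n →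
      ∃ y', Feas s t Q k w y' ∧ ∃ e, y' e = 0 ∨ y' e = 1 from H _ y hy rfl
  intro n
  induction n using Nat.strong_induction_on with
  | _ n ih =>
  intro y hy hn
  by_cases hint : ∃ e, y e = 0 ∨ y e = 1
  · exact ⟨y, hy, hint⟩
  push Not at hint
  have h0 : ∀ e, 0 < y e := fun e => lt_of_le_of_ne (hy.1 e).1 (Ne.symm (hint e).1)
  have h1 : ∀ e, y e < 1 := fun e => lt_of_le_of_ne (hy.1 e).2 (hint e).2
  let C : Cfg V ι := ⟨s, t, y, Q, hst, h0, h1⟩
  have hH1 : C.H1 k w := fun X hX hp => hy.2 X hX hp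
  obtain ⟨d, hd, hdt⟩ := key C rfl rfl rfl hH1
  let g : J → ℝ := fun j => match j with
    | Sum.inl X => ∑ e, C.row X.1 e * d e
    | Sum.inr (Sum.inl e) => d e
    | Sum.inr (Sum.inr e) => - d e
  have hlin : ∀ θ j, sl (fun e => y e + θ * d e) j = sl y j + θ * g j := by
    rintro θ (X | e | e)
    · change cutf s t (fun e => y e + θ * d e) X.1 - (w : ℝ) * ((k : ℝ) - (#(side X.1 1) : ℝ))
        = cutf s t y X.1 - (w : ℝ) * ((k : ℝ) - (#(side X.1 1) : ℝ))
          + θ * ∑ e, C.row X.1 e * d e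
      have : cutf s t (fun e => y e + θ * d e) X.1
          = cutf s t y X.1 + θ * ∑ e, C.row X.1 e * d e := by
        unfold cutf
        rw [Finset.mul_sum, ← Finset.sum_add_distrib]
        refine Finset.sum_congr rfl fun e _ => ?_
        change _ = _ + θ * (((cc (X.1 (s e)) (X.1 (t e)) : ℝ)
          - (cc (X.1 (t e)) (X.1 (s e)) : ℝ)) * d e)
        ring
      rw [this]
      ring
    · rfl
    · change 1 - (y e + θ * d e) = 1 - y e + θ * (- d e)
      ring
  have hg : ∀ j, sl y j = 0 → g j = 0 := by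
    rintro (X | e | e) hj
    · change cutf s t y X.1 - (w : ℝ) * ((k : ℝ) - (#(side X.1 1) : ℝ)) = 0 at hj
      change ∑ e, C.row X.1 e * d e = 0
      by_cases hk : #(side X.1 1) < k
      · exact hdt X.1 ⟨X.2.1, X.2.2, hk, by
          change cutf s t y X.1 = _
          linarith⟩
      · push Not at hk
        have hk' : (k : ℝ) ≤ (#(side X.1 1) : ℝ) := by exact_mod_cast hk
        have hw0 : (0 : ℝ) ≤ (w : ℝ) := Nat.cast_nonneg _
        have hle : cutf s t y X.1 ≤ 0 := by nlinarith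
        have hge : 0 ≤ cutf s t y X.1 :=
          Finset.sum_nonneg fun e _ => cutf_term_nonneg s t y hy.1 X.1 e
        have hz : cutf s t y X.1 = 0 := le_antisymm hle hge
        unfold cutf at hz
        rw [Finset.sum_eq_zero_iff_of_nonneg
          (fun e _ => cutf_term_nonneg s t y hy.1 X.1 e)] at hz
        refine Finset.sum_eq_zero fun e _ => ?_
        have he := hz e (Finset.mem_univ e)
        have hy0 := h0 e
        have hy1 := h1 e
        have c1 : (0 : ℝ) ≤ (cc (X.1 (s e)) (X.1 (t e)) : ℝ) := Nat.cast_nonneg _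
        have c2 : (0 : ℝ) ≤ (cc (X.1 (t e)) (X.1 (s e)) : ℝ) := Nat.cast_nonneg _
        have m1 : 0 ≤ (cc (X.1 (s e)) (X.1 (t e)) : ℝ) * y e := by positivity
        have m2 : 0 ≤ (cc (X.1 (t e)) (X.1 (s e)) : ℝ) * (1 - y e) :=
          mul_nonneg c2 (by linarith)
        have z1 : (cc (X.1 (s e)) (X.1 (t e)) : ℝ) * y e = 0 := by linarith
        have z2 : (cc (X.1 (t e)) (X.1 (s e)) : ℝ) * (1 - y e) = 0 := by linarith
        have w1 : (cc (X.1 (s e)) (X.1 (t e)) : ℝ) = 0 := by
          rcases mul_eq_zero.1 z1 with h | h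
          · exact h
          · linarith
        have w2 : (cc (X.1 (t e)) (X.1 (s e)) : ℝ) = 0 := by
          rcases mul_eq_zero.1 z2 with h | h
          · exact h
          · linarith
        change ((cc (X.1 (s e)) (X.1 (t e)) : ℝ) - (cc (X.1 (t e)) (X.1 (s e)) : ℝ)) * d e = 0
        rw [w1, w2]
        ring
    · exact absurd hj (ne_of_gt (h0 e))
    · change 1 - y e = 0 at hj
      linarith [h1 e]
  have hne : ∃ j, g j ≠ 0 := by
    obtain ⟨e, he⟩ := Function.ne_iff.1 hd
    exact ⟨Sum.inr (Sum.inl e), he⟩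
  obtain ⟨θ, ha, hb, j, hj1, hj2⟩ := lp_move (sl y) g ((hfeas y).1 hy) hg hne
  refine ih _ ?_ (fun e => y e + θ * d e) ?_ rfl
  · have hsub : univ.filter (fun j => sl y j = 0)
        ⊂ univ.filter (fun j => sl (fun e => y e + θ * d e) j = 0) := by
      rw [Finset.ssubset_iff_of_subset]
      · refine ⟨j, ?_, ?_⟩
        · rw [Finset.mem_filter, hlin]
          exact ⟨Finset.mem_univ _, hj2⟩
        · rw [Finset.mem_filter]
          exact fun h => hj1 h.2
      · intro i hi
        rw [Finset.mem_filter] at hi ⊢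
        refine ⟨Finset.mem_univ _, ?_⟩
        rw [hlin]
        exact hb i hi.2
    have hlt := Finset.card_lt_card hsub
    have hle : #(univ.filter (fun j => sl (fun e => y e + θ * d e) j = 0)) ≤ Fintype.card J :=
      Finset.card_le_univ _
    omega
  · rw [hfeas]
    intro j
    rw [hlin]
    exact ha j

variable (D : V → V → Prop) (φ : V → ℕ)

/-- the fixed arcs of a state -/
private def QQ (x : V × V → ℝ) (u v : V) : Prop :=
  D u v ∧ u ≠ v ∧ (¬ D v u ∨ (φ u < φ v ∧ x (u, v) = 1) ∨ (φ v < φ u ∧ x (v, u) = 0))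

/-- the undecided edges of a state -/
private abbrev UU (x : V × V → ℝ) : Type u :=
  {p : V × V // (φ p.1 < φ p.2 ∧ D p.1 p.2 ∧ D p.2 p.1) ∧ 0 < x p ∧ x p < 1}

open Classical in
/-- good states -/
private def Good (k w : ℕ) (x : V × V → ℝ) : Prop :=
  (∀ p, 0 ≤ x p ∧ x p ≤ 1) ∧
    Feas (fun e : UU D φ x => e.1.1) (fun e => e.1.2) (QQ D φ x) k w (fun e => x e.1)

open Classical in
private theorem card_F_le {x : V × V → ℝ} (X : V → Fin 3)
    (h : ∀ u v, D u v → X u = 2 → X v = 0 → ∃ e : UU D φ x, e.1 = (u, v) ∨ e.1 = (v, u)) :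
    #(univ.filter (fun p : V × V => D p.1 p.2 ∧ X p.1 = 2 ∧ X p.2 = 0)) ≤
      #(univ.filter (fun e : UU D φ x => (X e.1.1 = 2 ∧ X e.1.2 = 0) ∨
        (X e.1.2 = 2 ∧ X e.1.1 = 0))) := by
  let g : UU D φ x → V × V := fun e => if X e.1.1 = 2 then (e.1.1, e.1.2) else (e.1.2, e.1.1)
  refine le_trans (Finset.card_le_card ?_) (Finset.card_image_le (f := g))
  rintro ⟨u, v⟩ huv
  rw [Finset.mem_filter] at huv
  obtain ⟨-, hD, hu, hv⟩ := huv
  simp only at hD hu hv
  obtain ⟨e, he⟩ := h u v hD hu hv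
  rw [Finset.mem_image]
  refine ⟨e, ?_, ?_⟩
  · rw [Finset.mem_filter]
    refine ⟨Finset.mem_univ _, ?_⟩
    rcases he with he | he
    · left
      rw [he]
      exact ⟨hu, hv⟩
    · right
      rw [he]
      exact ⟨hu, hv⟩
  · rcases he with he | he
    · simp only [g, he, hu, if_true]
    · simp only [g, he, hv]
      rw [if_neg (by decide)]

open Classical in
private theorem rounding (hφ : Function.Injective φ) (k w m : ℕ) (hm' : 2 * (k - 1) ≤ m)
    (key : KeyProp.{u} (m + 1) k w (m - 2 * (k - 1))) (hD : KStrong m D) :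
    ∀ n, ∀ x, Good D φ k w x → Fintype.card (UU D φ x) = n →
      ∃ x', Good D φ k w x' ∧ IsEmpty (UU D φ x') := by
  intro n
  induction n using Nat.strong_induction_on with
  | _ n ih =>
  intro x hx hn
  by_cases hemp : IsEmpty (UU D φ x)
  · exact ⟨x, hx, hemp⟩
  rw [not_isEmpty_iff] at hemp
  have hne : ∀ e : UU D φ x, e.1.1 ≠ e.1.2 := by
    intro e h
    have := e.2.1.1
    rw [h] at this
    exact lt_irrefl _ this
  obtain ⟨y, hy, e₀, he₀⟩ := exists_integral (fun e : UU D φ x => e.1.1) (fun e => e.1.2) hne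
    (QQ D φ x) k w (by
      intro C hs ht hQ hC
      refine key V (UU D φ x) C hD.1 hC ?_
      intro X hX hX' hp hwall
      by_cases hwm : #(side X 1) < m
      · have h1 := arcs_ge m D hD X hp hwm
        have h2 := card_F_le D φ (x := x) X (by
          intro u v huv hu hv
          have huv' : u ≠ v := by
            intro h
            rw [h, hv] at hu
            exact absurd hu (by decide)
          have hQ1 : ¬ QQ D φ x u v := by
            intro h
            rw [← hQ] at h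
            exact hX u v h hu hv
          have hQ2 : ¬ QQ D φ x v u := by
            intro h
            rw [← hQ] at h
            refine hX' v u h ?_ ?_
            · simp [rv, hv]
            · simp [rv, hu]
          have hvu : D v u := by
            by_contra h
            exact hQ1 ⟨huv, huv', Or.inl h⟩
          rcases lt_or_gt_of_ne (fun h => huv' (hφ h)) with hlt | hlt
          · refine ⟨⟨(u, v), ⟨hlt, huv, hvu⟩, ?_, ?_⟩, Or.inl rfl⟩
            · refine lt_of_le_of_ne (hx.1 _).1 (fun h => hQ2 ⟨hvu, huv'.symm, ?_⟩)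
              exact Or.inr (Or.inr ⟨hlt, h.symm⟩)
            · refine lt_of_le_of_ne (hx.1 _).2 (fun h => hQ1 ⟨huv, huv', ?_⟩)
              exact Or.inr (Or.inl ⟨hlt, h⟩)
          · refine ⟨⟨(v, u), ⟨hlt, hvu, huv⟩, ?_, ?_⟩, Or.inr rfl⟩
            · refine lt_of_le_of_ne (hx.1 _).1 (fun h => hQ1 ⟨huv, huv', ?_⟩)
              exact Or.inr (Or.inr ⟨hlt, h.symm⟩)
            · refine lt_of_le_of_ne (hx.1 _).2 (fun h => hQ2 ⟨hvu, huv'.symm, ?_⟩)
              exact Or.inr (Or.inl ⟨hlt, h⟩))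
        have h3 : #(C.sep X) = #(univ.filter (fun e : UU D φ x => (X e.1.1 = 2 ∧ X e.1.2 = 0) ∨
            (X e.1.2 = 2 ∧ X e.1.1 = 0))) := by
          unfold Cfg.sep
          rw [hs, ht]
        rw [h3]
        omega
      · omega) (fun e => x e.1) hx.2
  -- the new state
  let x' : V × V → ℝ := fun p =>
    if h : (φ p.1 < φ p.2 ∧ D p.1 p.2 ∧ D p.2 p.1) ∧ 0 < x p ∧ x p < 1 then y ⟨p, h⟩ else x p
  have hx'1 : ∀ e : UU D φ x, x' e.1 = y e := by
    intro e
    simp only [x']
    rw [dif_pos e.2]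
  have hx'2 : ∀ p, ¬ ((φ p.1 < φ p.2 ∧ D p.1 p.2 ∧ D p.2 p.1) ∧ 0 < x p ∧ x p < 1) →
      x' p = x p := by
    intro p hp
    simp only [x']
    rw [dif_neg hp]
  have hb : ∀ p, 0 ≤ x' p ∧ x' p ≤ 1 := by
    intro p
    by_cases h : (φ p.1 < φ p.2 ∧ D p.1 p.2 ∧ D p.2 p.1) ∧ 0 < x p ∧ x p < 1
    · rw [show x' p = y ⟨p, h⟩ from hx'1 ⟨p, h⟩]
      exact hy.1 _
    · rw [hx'2 p h]
      exact hx.1 p
  have hin : ∀ e : UU D φ x', (φ e.1.1 < φ e.1.2 ∧ D e.1.1 e.1.2 ∧ D e.1.2 e.1.1) ∧
      0 < x e.1 ∧ x e.1 < 1 := by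
    intro e
    by_contra h
    have h1 := hx'2 e.1 h
    have h2 := e.2
    rw [h1] at h2
    exact h h2
  let inc : UU D φ x' → UU D φ x := fun e => ⟨e.1, hin e⟩
  have hinj : Function.Injective inc := by
    intro a b hab
    apply Subtype.ext
    exact congrArg (fun e : UU D φ x => e.1) hab
  have hnr : ∀ e : UU D φ x, e ∉ Set.range inc → y e = 0 ∨ y e = 1 := by
    intro e he
    by_contra hcon
    push Not at hcon
    apply he
    have h1 := hx'1 e
    refine ⟨⟨e.1, e.2.1, ?_, ?_⟩, Subtype.ext rfl⟩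
    · rw [h1]
      exact lt_of_le_of_ne (hy.1 e).1 (Ne.symm hcon.1)
    · rw [h1]
      exact lt_of_le_of_ne (hy.1 e).2 hcon.2
  have he₀' : e₀ ∉ Set.range inc := by
    rintro ⟨e, rfl⟩
    have h1 := hx'1 (inc e)
    have h2 := e.2.2
    have h3 : (inc e).1 = e.1 := rfl
    rw [h3] at h1
    rw [h1] at h2
    rcases he₀ with h | h
    · linarith [h2.1]
    · linarith [h2.2]
  have hcard : Fintype.card (UU D φ x') < n := by
    rw [← hn]
    exact Fintype.card_lt_of_injective_of_notMem inc hinj he₀'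
  refine ih _ hcard x' ⟨hb, fun e => hb e.1, ?_⟩ rfl
  intro X hX hp
  have hX0 : ∀ u v, QQ D φ x u v → X u = 2 → X v ≠ 0 := by
    rintro u v ⟨h1, h2, h3⟩
    apply hX u v
    refine ⟨h1, h2, ?_⟩
    rcases h3 with h | ⟨h, h'⟩ | ⟨h, h'⟩
    · exact Or.inl h
    · right
      left
      refine ⟨h, ?_⟩
      rw [hx'2 (u, v) (fun hh => by linarith [hh.2.2]), h']
    · right
      right
      refine ⟨h, ?_⟩
      rw [hx'2 (v, u) (fun hh => by linarith [hh.2.1]), h']
  refine le_trans (hy.2 X hX0 hp) (le_of_eq ?_)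
  unfold cutf
  symm
  refine Fintype.sum_of_injective inc hinj _ _ ?_ ?_
  · intro e he
    have hφe := e.2.1.1
    have hne' := hne e
    rcases hnr e he with h | h
    · have h1 : ¬ (X e.1.2 = 2 ∧ X e.1.1 = 0) := by
        rintro ⟨h2, h3⟩
        refine hX e.1.2 e.1.1 ⟨e.2.1.2.2, hne'.symm, ?_⟩ h2 h3
        exact Or.inr (Or.inr ⟨hφe, (hx'1 e).trans h⟩)
      have h2 : cc (X e.1.2) (X e.1.1) = 0 := by
        unfold cc
        rw [if_neg h1]
      rw [h, h2]
      simp
    · have h1 : ¬ (X e.1.1 = 2 ∧ X e.1.2 = 0) := by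
        rintro ⟨h2, h3⟩
        refine hX e.1.1 e.1.2 ⟨e.2.1.2.1, hne', ?_⟩ h2 h3
        exact Or.inr (Or.inl ⟨hφe, (hx'1 e).trans h⟩)
      have h2 : cc (X e.1.1) (X e.1.2) = 0 := by
        unfold cc
        rw [if_neg h1]
      rw [h, h2]
      simp
  · intro e
    have h1 := hx'1 (inc e)
    have h3 : (inc e).1 = e.1 := rfl
    rw [h3] at h1
    rw [← h1]

end round

open Classical in
theorem main_of_key (k w m : ℕ) (hk : 1 ≤ k) (hw : 1 ≤ w) (hm : 2 * w * k ≤ m)
    (hm' : 2 * (k - 1) ≤ m)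
    (key : KeyProp.{u} (m + 1) k w (m - 2 * (k - 1)))
    (V : Type u) [Fintype V] (D : V → V → Prop) (hD : KStrong m D) :
    ∃ H : V → V → Prop, SpanningOriented D H ∧ KStrong k H := by
  let φ : V → ℕ := fun v => (Fintype.equivFin V v : ℕ)
  have hφ : Function.Injective φ := fun a b h =>
    (Fintype.equivFin V).injective (Fin.ext h)
  have hwR : (1 : ℝ) ≤ (w : ℝ) := by exact_mod_cast hw
  have hkm : k ≤ m := by nlinarith
  -- the state `1 / 2` is good
  have hstart : Good D φ k w (fun _ => (1 / 2 : ℝ)) := by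
    refine ⟨fun _ => by norm_num, fun _ => by norm_num, ?_⟩
    intro X hX hp
    by_cases hwall : #(side X 1) < k
    · have h1 := arcs_ge m D hD X hp (lt_of_lt_of_le hwall hkm)
      have h2 := card_F_le D φ (x := fun _ => (1 / 2 : ℝ)) X (by
        intro u v huv hu hv
        have huv' : u ≠ v := by
          intro h
          rw [h, hv] at hu
          exact absurd hu (by decide)
        have hvu : D v u := by
          by_contra h
          exact hX u v ⟨huv, huv', Or.inl h⟩ hu hv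
        rcases lt_or_gt_of_ne (fun h => huv' (hφ h)) with hlt | hlt
        · exact ⟨⟨(u, v), ⟨hlt, huv, hvu⟩, by norm_num, by norm_num⟩, Or.inl rfl⟩
        · exact ⟨⟨(v, u), ⟨hlt, hvu, huv⟩, by norm_num, by norm_num⟩, Or.inr rfl⟩)
      set S := univ.filter (fun e : UU D φ (fun _ => (1 / 2 : ℝ)) =>
        (X e.1.1 = 2 ∧ X e.1.2 = 0) ∨ (X e.1.2 = 2 ∧ X e.1.1 = 0)) with hS
      have h3 : (1 / 2 : ℝ) * (#S : ℝ) ≤ cutf (fun e : UU D φ (fun _ => (1 / 2 : ℝ)) => e.1.1)
          (fun e => e.1.2) (fun _ => (1 / 2 : ℝ)) X := by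
        have e1 : (1 / 2 : ℝ) * (#S : ℝ) = ∑ e : UU D φ (fun _ => (1 / 2 : ℝ)),
            (if (X e.1.1 = 2 ∧ X e.1.2 = 0) ∨ (X e.1.2 = 2 ∧ X e.1.1 = 0) then (1 / 2 : ℝ)
              else 0) := by
          rw [← Finset.sum_filter, Finset.sum_const, nsmul_eq_mul]
          ring
        rw [e1]
        unfold cutf
        refine Finset.sum_le_sum fun e _ => ?_
        have c1 : (0 : ℝ) ≤ (cc (X e.1.1) (X e.1.2) : ℝ) := Nat.cast_nonneg _
        have c2 : (0 : ℝ) ≤ (cc (X e.1.2) (X e.1.1) : ℝ) := Nat.cast_nonneg _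
        split_ifs with hc
        · rcases hc with hc | hc
          · have : cc (X e.1.1) (X e.1.2) = 1 := by
              unfold cc
              rw [if_pos hc]
            rw [this]
            push_cast
            linarith
          · have : cc (X e.1.2) (X e.1.1) = 1 := by
              unfold cc
              rw [if_pos hc]
            rw [this]
            push_cast
            linarith
        · linarith
      refine le_trans ?_ h3
      have h4 : (m : ℝ) ≤ (#(side X 1) : ℝ) + (#S : ℝ) := by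
        exact_mod_cast le_trans h1 (Nat.add_le_add_left h2 _)
      have h5 : 2 * (w : ℝ) * (k : ℝ) ≤ (m : ℝ) := by exact_mod_cast hm
      have h6 : (0 : ℝ) ≤ (#(side X 1) : ℝ) := Nat.cast_nonneg _
      nlinarith
    · push Not at hwall
      have hk' : (k : ℝ) ≤ (#(side X 1) : ℝ) := by exact_mod_cast hwall
      have hge : 0 ≤ cutf (fun e : UU D φ (fun _ => (1 / 2 : ℝ)) => e.1.1)
          (fun e => e.1.2) (fun _ => (1 / 2 : ℝ)) X :=
        Finset.sum_nonneg fun e _ => cutf_term_nonneg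
          (fun e : UU D φ (fun _ => (1 / 2 : ℝ)) => e.1.1) (fun e => e.1.2)
          (fun _ => (1 / 2 : ℝ)) (fun _ => by constructor <;> norm_num) X e
      refine le_trans ?_ hge
      nlinarith
  obtain ⟨x, hx, hemp⟩ := rounding D φ hφ k w m hm' key hD _ _ hstart rfl
  refine ⟨QQ D φ x, ⟨fun u v h => h.1, ?_⟩, ?_, ?_⟩
  · rintro u v ⟨h1, h2, h3⟩ ⟨h4, h5, h6⟩
    rcases h3 with h | ⟨h, h'⟩ | ⟨h, h'⟩
    · exact h h4
    · rcases h6 with h6 | ⟨h6, h6'⟩ | ⟨h6, h6'⟩
      · exact h6 h1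
      · exact lt_asymm h h6
      · rw [h'] at h6'
        norm_num at h6'
    · rcases h6 with h6 | ⟨h6, h6'⟩ | ⟨h6, h6'⟩
      · exact h6 h1
      · rw [h'] at h6'
        norm_num at h6'
      · exact lt_asymm h h6
  · exact le_trans (Nat.succ_le_succ hkm) hD.1
  · intro X₀ hX₀ u v hu hv
    by_contra hcon
    set R : V → V → Prop := fun a b => QQ D φ x a b ∧ a ∉ X₀ ∧ b ∉ X₀ with hR
    let X : V → Fin 3 := fun z => if z ∈ X₀ then 1 else if Relation.ReflTransGen R u z then 2 else 0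
    have hXu : X u = 2 := by
      simp only [X]
      rw [if_neg hu, if_pos Relation.ReflTransGen.refl]
    have hXv : X v = 0 := by
      simp only [X]
      rw [if_neg hv, if_neg hcon]
    have hclosed : ∀ a b, QQ D φ x a b → X a = 2 → X b ≠ 0 := by
      intro a b hab ha hb
      have ha0 : a ∉ X₀ := by
        intro h
        simp only [X] at ha
        rw [if_pos h] at ha
        exact absurd ha (by decide)
      have hb0 : b ∉ X₀ := by
        intro h
        simp only [X] at hb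
        rw [if_pos h] at hb
        exact absurd hb (by decide)
      have har : Relation.ReflTransGen R u a := by
        by_contra h
        simp only [X] at ha
        rw [if_neg ha0, if_neg h] at ha
        exact absurd ha (by decide)
      have hbr : Relation.ReflTransGen R u b := har.tail ⟨hab, ha0, hb0⟩
      simp only [X] at hb
      rw [if_neg hb0, if_pos hbr] at hb
      exact absurd hb (by decide)
    have hside : #(side X 1) ≤ #X₀ := by
      apply Finset.card_le_card
      intro z hz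
      simp only [side, Finset.mem_filter, Finset.mem_univ, true_and, X] at hz
      by_contra h
      rw [if_neg h] at hz
      by_cases h' : Relation.ReflTransGen R u z
      · rw [if_pos h'] at hz
        exact absurd hz (by decide)
      · rw [if_neg h'] at hz
        exact absurd hz (by decide)
    have h1 := hx.2.2 X hclosed ⟨⟨u, hXu⟩, ⟨v, hXv⟩⟩
    have h2 : cutf (fun e : UU D φ x => e.1.1) (fun e => e.1.2) (fun e => x e.1) X = 0 := by
      unfold cutf
      exact Finset.sum_of_isEmpty _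
    rw [h2] at h1
    have h3 : (#(side X 1) : ℝ) < (k : ℝ) := by
      exact_mod_cast lt_of_le_of_lt hside hX₀
    nlinarith

theorem two_strong (V : Type u) [Fintype V] (D : V → V → Prop) (hD : KStrong 287 D) :
    ∃ H : V → V → Prop, SpanningOriented D H ∧ KStrong 2 H := by
  refine main_of_key 2 71 287 (by norm_num) (by norm_num) (by norm_num) (by norm_num) ?_ V D hD
  intro V ι _ _ _ _ C hn h1 h2
  exact key_two C (by omega) h1 h2

end Pool.Agent.JT71
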