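import Pool.Agent.JT71.Basic

/-!
# The relation on signed big members

A signed member is `p = (X, b)`, with `fs p = X` or `rv X`; `bar p` has the other sign.

`Rel p q`: same sign and `fs p ≤ fs q`, or different signs and no vertex `v` has `fs p v = 2` and
`fs q v = 0`.

For two different big non-crossing tight `X, Y` exactly one of these holds:
(R1) no `v` has `X v = Y v = 2`; (R2) no `v` has `X v = Y v = 0`; (R3) `X ≤ Y`; (R4) `Y ≤ X`.
`R3 & R4` gives `X = Y`; the four pairs `R1 & R3` etc. contradict that the sides are nonempty;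
`R1 & R2` is excluded by `excl` below: let `Z v = 2` if `(X v, Y v) = (2, 0)`, `Z v = 0` if
`(X v, Y v) = (0, 2)` and `Z v = 1` otherwise.  `Z` and `rv Z` are closed, `Z` is proper (`X` has
at least three vertices of letter `2`, at most one of them has letter `1` in `Y` and none has
letter `2` in `Y`; same for letter `0`), and its wall has at most `2` vertices (a vertex of the
wall of `Z` is in the wall of `X` or in the wall of `Y`).  By `H2` there are at least `285`
separated edges; each of them contributes (`y e` and `1 - y e`) in total `1` to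
`cut X + cut Y ≤ 4 * 71 = 284`: contradiction.

In terms of `Rel`: `R3 = Rel (X,+) (Y,+) = Rel (Y,-) (X,-)`, `R4 = Rel (X,-) (Y,-)`,
`R1 = Rel (X,+) (Y,-)`, `R2 = Rel (X,-) (Y,+)`.

Transitivity of `Rel p q`, `Rel q r` (with different underlying sets of `p, q` and of `q, r`; then
those of `p, r` are different too):
* all signs equal: transitivity of `≤`; `p, q` same and `r` different, or `q, r` same and `p`
  different: immediate;
* `p, r` same sign, `q` different.  At most one vertex has `fs q v = 1`.  Among the three or more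
  `v` with `fs p v = 2` (all have `fs q v ≠ 0`) and ... one gets a `v` with `fs p v = fs q v = 2`
  and then `fs r v ≠ 0`; as at most one vertex has `fs r v = 1`, three vertices suffice to get
  `fs p v = fs r v = 2`.  In the same way there is a `v` with `fs p v = fs r v = 0`.  As the
  underlying sets do not cross, `fs p ≤ fs r` or `fs r ≤ fs p`; in the second case
  `fs r v = 2 → fs p v = 2 → fs q v ≠ 0`, so `Rel r q` and `Rel q r` hold, which is excluded.
-/

namespace Pool.Agent.JT71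

open Finset

variable {V ι : Type*}

/-- the bi-set of a signed member -/
def fs (p : (V → Fin 3) × Bool) : V → Fin 3 := if p.2 then p.1 else rv p.1

/-- the opposite sign -/
def bar (p : (V → Fin 3) × Bool) : (V → Fin 3) × Bool := (p.1, !p.2)

/-- the relation on signed members -/
def Rel (p q : (V → Fin 3) × Bool) : Prop :=
  (p.2 = q.2 ∧ fs p ≤ fs q) ∨ (p.2 ≠ q.2 ∧ ∀ v, ¬ (fs p v = 2 ∧ fs q v = 0))

theorem fs_bar (p : (V → Fin 3) × Bool) : fs (bar p) = rv (fs p) := by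
  rcases p with ⟨X, b⟩
  cases b <;> simp [fs, bar, rv_rv]

theorem rel_bar {p q : (V → Fin 3) × Bool} : Rel (bar q) (bar p) ↔ Rel p q := by
  have hs : ((bar q).2 = (bar p).2) ↔ p.2 = q.2 := by
    show (!q.2) = (!p.2) ↔ p.2 = q.2
    cases p.2 <;> cases q.2 <;> simp
  unfold Rel
  rw [hs, fs_bar, fs_bar, rv_le_rv]
  apply or_congr Iff.rfl
  apply and_congr (not_congr hs)
  apply forall_congr'
  intro v
  rw [rv_eq_two, rv_eq_zero, and_comm]

theorem excl [Fintype V] [Fintype ι] (C : Cfg V ι) (h2 : C.H2 2 285) {X Y : V → Fin 3}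
    (hX : C.Tight 2 71 X) (hY : C.Tight 2 71 Y) (bX : Big X)
    (h : ∀ v, ¬ (X v = 2 ∧ Y v = 2)) : ∃ v, X v = 0 ∧ Y v = 0 := by
  classical
  by_contra hcon
  push Not at hcon
  obtain ⟨cX, pX, wX, tX⟩ := hX
  obtain ⟨cY, pY, wY, tY⟩ := hY
  obtain ⟨Z, hZ2, hZ0⟩ : ∃ Z : V → Fin 3, (∀ v, Z v = 2 ↔ X v = 2 ∧ Y v = 0) ∧
      (∀ v, Z v = 0 ↔ X v = 0 ∧ Y v = 2) := by
    refine ⟨fun v => if X v = 2 ∧ Y v = 0 then 2 else if X v = 0 ∧ Y v = 2 then 0 else 1,
      fun v => ?_, fun v => ?_⟩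
    · beta_reduce
      split_ifs with h1 h2
      · simp [h1]
      · simp [h1]
      · simp [h1]
    · beta_reduce
      split_ifs with h1 h2
      · constructor
        · intro h3
          exact absurd h3 (by decide)
        · rintro ⟨h3, -⟩
          rw [h1.1] at h3
          exact absurd h3 (by decide)
      · simp [h2]
      · simp [h2]
  have three : ∀ a b c : Fin 3, a ≠ b → a ≠ c → b ≠ c → ∀ x : Fin 3, x = a ∨ x = b ∨ x = c := by
    decide
  -- a vertex of each of the two sides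
  have aux : ∀ a b : Fin 3, a ≠ 1 → b ≠ 1 → a ≠ b → 3 ≤ #(side X a) →
      (∀ v, X v = a → Y v ≠ a) → ∃ v, X v = a ∧ Y v = b := by
    intro a b ha hb hab h3 hno
    by_contra hc
    push Not at hc
    have hsub : side X a ⊆ side Y 1 := by
      intro v hv
      simp only [side, mem_filter, mem_univ, true_and] at hv ⊢
      rcases three a b 1 hab ha hb (Y v) with h4 | h4 | h4
      · exact absurd h4 (hno v hv)
      · exact absurd h4 (hc v hv)
      · exact h4
    have := card_le_card hsub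
    omega
  have hprop : Proper Z := by
    constructor
    · obtain ⟨v, hv⟩ := aux 2 0 (by decide) (by decide) (by decide) bX.1
        (fun v h1 h4 => h v ⟨h1, h4⟩)
      exact ⟨v, (hZ2 v).2 hv⟩
    · obtain ⟨v, hv⟩ := aux 0 2 (by decide) (by decide) (by decide) bX.2
        (fun v h1 h4 => hcon v h1 h4)
      exact ⟨v, (hZ0 v).2 hv⟩
  have hcl : C.Closed Z := by
    intro u v hQ hu hv
    exact cX u v hQ ((hZ2 u).1 hu).1 ((hZ0 v).1 hv).1
  have hcl' : C.Closed (rv Z) := by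
    intro u v hQ hu hv
    rw [rv_eq_two] at hu
    rw [rv_eq_zero] at hv
    exact cY u v hQ ((hZ0 u).1 hu).2 ((hZ2 v).1 hv).2
  have hwall : #(side Z 1) ≤ 2 * (2 - 1) := by
    have hsub : side Z 1 ⊆ side X 1 ∪ side Y 1 := by
      intro v hv
      simp only [side, mem_filter, mem_univ, true_and, mem_union] at hv ⊢
      by_contra hn
      push Not at hn
      rcases three 0 2 1 (by decide) (by decide) (by decide) (X v) with h4 | h4 | h4
      · rcases three 0 2 1 (by decide) (by decide) (by decide) (Y v) with h5 | h5 | h5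
        · exact hcon v h4 h5
        · have h6 := (hZ0 v).2 ⟨h4, h5⟩
          rw [hv] at h6
          exact absurd h6 (by decide)
        · exact hn.2 h5
      · rcases three 0 2 1 (by decide) (by decide) (by decide) (Y v) with h5 | h5 | h5
        · have h6 := (hZ2 v).2 ⟨h4, h5⟩
          rw [hv] at h6
          exact absurd h6 (by decide)
        · exact h v ⟨h4, h5⟩
        · exact hn.2 h5
      · exact hn.1 h4
    have h7 := (card_le_card hsub).trans (card_union_le _ _)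
    omega
  have hsep := h2 Z hcl hcl' hprop hwall
  -- the two cuts
  have hcut : (#(C.sep Z) : ℝ) ≤ C.cut X + C.cut Y := by
    have e1 : (#(C.sep Z) : ℝ) = ∑ e, if ((Z (C.s e) = 2 ∧ Z (C.t e) = 0) ∨
        (Z (C.t e) = 2 ∧ Z (C.s e) = 0)) then (1 : ℝ) else 0 := by
      rw [Cfg.sep, Finset.sum_boole]
    rw [e1, Cfg.cut, Cfg.cut, ← Finset.sum_add_distrib]
    apply Finset.sum_le_sum
    intro e _
    have y0 := C.y_pos e
    have y1 := C.y_lt e
    have c0 : ∀ a b : Fin 3, (0 : ℝ) ≤ (cc a b : ℝ) := fun a b => Nat.cast_nonneg _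
    have p1 := mul_nonneg (c0 (X (C.s e)) (X (C.t e))) y0.le
    have p2 := mul_nonneg (c0 (X (C.t e)) (X (C.s e))) (sub_nonneg.2 y1.le)
    have p3 := mul_nonneg (c0 (Y (C.s e)) (Y (C.t e))) y0.le
    have p4 := mul_nonneg (c0 (Y (C.t e)) (Y (C.s e))) (sub_nonneg.2 y1.le)
    have cone : cc 2 0 = 1 := by simp [cc]
    split_ifs with hc
    · rcases hc with ⟨h5, h6⟩ | ⟨h5, h6⟩
      · obtain ⟨q1, q2⟩ := (hZ2 _).1 h5
        obtain ⟨q3, q4⟩ := (hZ0 _).1 h6
        rw [q1, q2, q3, q4] at *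
        rw [cone] at *
        push_cast at *
        linarith
      · obtain ⟨q1, q2⟩ := (hZ2 _).1 h5
        obtain ⟨q3, q4⟩ := (hZ0 _).1 h6
        rw [q1, q2, q3, q4] at *
        rw [cone] at *
        push_cast at *
        linarith
    · linarith
  have h8 : (285 : ℝ) ≤ (#(C.sep Z) : ℝ) := by exact_mod_cast hsep
  have h9 : (0 : ℝ) ≤ (#(side X 1) : ℝ) := Nat.cast_nonneg _
  have h10 : (0 : ℝ) ≤ (#(side Y 1) : ℝ) := Nat.cast_nonneg _
  push_cast at tX tY
  linarith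

/-- a set of pairwise non-crossing tight big bi-sets -/
structure BigFam [Fintype V] [Fintype ι] (C : Cfg V ι) (B : Finset (V → Fin 3)) : Prop where
  h1 : C.H1 2 71
  h2 : C.H2 2 285
  tight : ∀ X ∈ B, C.Tight 2 71 X
  big : ∀ X ∈ B, Big X
  cross : ∀ X ∈ B, ∀ Y ∈ B, ¬ Cr X Y

section

variable [Fintype V] [Fintype ι] {C : Cfg V ι} {B : Finset (V → Fin 3)}

/-- at least one of the four relations holds -/
theorem rel_cases (hB : BigFam C B) {p q : (V → Fin 3) × Bool} (hp : p.1 ∈ B) (hq : q.1 ∈ B)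
    (hne : p.1 ≠ q.1) : Rel p q ∨ Rel p (bar q) ∨ Rel (bar p) q ∨ Rel (bar p) (bar q) := by
  have hcr := hB.cross _ hp _ hq
  rcases p with ⟨X, b⟩
  rcases q with ⟨Y, c⟩
  have key : (∀ v, ¬ (X v = 2 ∧ Y v = 2)) ∨ (∀ v, ¬ (X v = 0 ∧ Y v = 0)) ∨ X ≤ Y ∨ Y ≤ X := by
    by_contra hn
    push Not at hn
    exact hcr ⟨hn.1, hn.2.1, hn.2.2.1, hn.2.2.2⟩
  have key' : ∀ v, (Y v = 2 ∧ X v = 2) ↔ (X v = 2 ∧ Y v = 2) := fun v => and_comm
  cases b <;> cases c <;>
    simp only [Rel, fs, bar, rv_le_rv, rv_eq_two, rv_eq_zero, Bool.not_true, Bool.not_false,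
      if_true, if_false, Bool.false_eq_true, true_and, false_and, or_false, false_or, ne_eq,
      not_true_eq_false, not_false_eq_true, reduceCtorEq] <;> tauto

/-- the six exclusions for two different members -/
theorem excl_six (hB : BigFam C B) {X Y : V → Fin 3} (hX : X ∈ B) (hY : Y ∈ B) (hne : X ≠ Y) :
    ¬ ((∀ v, ¬ (X v = 2 ∧ Y v = 2)) ∧ ∀ v, ¬ (X v = 0 ∧ Y v = 0)) ∧
    ¬ ((∀ v, ¬ (X v = 2 ∧ Y v = 2)) ∧ X ≤ Y) ∧
    ¬ ((∀ v, ¬ (X v = 2 ∧ Y v = 2)) ∧ Y ≤ X) ∧
    ¬ ((∀ v, ¬ (X v = 0 ∧ Y v = 0)) ∧ X ≤ Y) ∧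
    ¬ ((∀ v, ¬ (X v = 0 ∧ Y v = 0)) ∧ Y ≤ X) ∧
    ¬ (X ≤ Y ∧ Y ≤ X) := by
  obtain ⟨-, ⟨⟨a, ha⟩, ⟨b, hb⟩⟩, -, -⟩ := hB.tight X hX
  obtain ⟨-, ⟨⟨c, hc⟩, ⟨d, hd⟩⟩, -, -⟩ := hB.tight Y hY
  have top : ∀ x : Fin 3, 2 ≤ x → x = 2 := by decide
  have bot : ∀ x : Fin 3, x ≤ 0 → x = 0 := by decide
  refine ⟨?_, ?_, ?_, ?_, ?_, ?_⟩
  · rintro ⟨h1, h2⟩
    obtain ⟨v, hv⟩ := excl C hB.h2 (hB.tight X hX) (hB.tight Y hY) (hB.big X hX) h1
    exact h2 v hv
  · rintro ⟨h1, h2⟩
    refine h1 a ⟨ha, top _ ?_⟩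
    rw [← ha]
    exact h2 a
  · rintro ⟨h1, h2⟩
    refine h1 c ⟨top _ ?_, hc⟩
    rw [← hc]
    exact h2 c
  · rintro ⟨h1, h2⟩
    refine h1 d ⟨bot _ ?_, hd⟩
    rw [← hd]
    exact h2 d
  · rintro ⟨h1, h2⟩
    refine h1 b ⟨hb, bot _ ?_⟩
    rw [← hb]
    exact h2 b
  · rintro ⟨h1, h2⟩
    exact hne (le_antisymm h1 h2)

/-- at most one of the four relations holds -/
theorem rel_not_bar_right (hB : BigFam C B) {p q : (V → Fin 3) × Bool} (hp : p.1 ∈ B)
    (hq : q.1 ∈ B) (hne : p.1 ≠ q.1) (h : Rel p q) : ¬ Rel p (bar q) := by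
  rcases p with ⟨X, b⟩
  rcases q with ⟨Y, c⟩
  have key := excl_six hB hp hq hne
  have key' : (∀ v, ¬ (Y v = 2 ∧ X v = 2)) ↔ ∀ v, ¬ (X v = 2 ∧ Y v = 2) :=
    forall_congr' fun v => not_congr and_comm
  have key'' : (∀ v, ¬ (Y v = 0 ∧ X v = 0)) ↔ ∀ v, ¬ (X v = 0 ∧ Y v = 0) :=
    forall_congr' fun v => not_congr and_comm
  revert h key
  cases b <;> cases c <;>
    simp only [Rel, fs, bar, rv_le_rv, rv_eq_two, rv_eq_zero, Bool.not_true, Bool.not_false,
      if_true, if_false, Bool.false_eq_true, true_and, false_and, or_false, false_or, ne_eq,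
      not_true_eq_false, not_false_eq_true, reduceCtorEq] <;> tauto

theorem rel_not_bar_left (hB : BigFam C B) {p q : (V → Fin 3) × Bool} (hp : p.1 ∈ B)
    (hq : q.1 ∈ B) (hne : p.1 ≠ q.1) (h : Rel p q) : ¬ Rel (bar p) q := by
  rcases p with ⟨X, b⟩
  rcases q with ⟨Y, c⟩
  have key := excl_six hB hp hq hne
  have key' : (∀ v, ¬ (Y v = 2 ∧ X v = 2)) ↔ ∀ v, ¬ (X v = 2 ∧ Y v = 2) :=
    forall_congr' fun v => not_congr and_comm
  have key'' : (∀ v, ¬ (Y v = 0 ∧ X v = 0)) ↔ ∀ v, ¬ (X v = 0 ∧ Y v = 0) :=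
    forall_congr' fun v => not_congr and_comm
  revert h key
  cases b <;> cases c <;>
    simp only [Rel, fs, bar, rv_le_rv, rv_eq_two, rv_eq_zero, Bool.not_true, Bool.not_false,
      if_true, if_false, Bool.false_eq_true, true_and, false_and, or_false, false_or, ne_eq,
      not_true_eq_false, not_false_eq_true, reduceCtorEq] <;> tauto

/-- `Rel (bar p) (bar q) ↔ Rel q p` -/
theorem rel_not_symm (hB : BigFam C B) {p q : (V → Fin 3) × Bool} (hp : p.1 ∈ B)
    (hq : q.1 ∈ B) (hne : p.1 ≠ q.1) (h : Rel p q) : ¬ Rel q p := by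
  rcases p with ⟨X, b⟩
  rcases q with ⟨Y, c⟩
  have key := excl_six hB hp hq hne
  have key' : (∀ v, ¬ (Y v = 2 ∧ X v = 0)) ↔ ∀ v, ¬ (X v = 0 ∧ Y v = 2) :=
    forall_congr' fun v => not_congr and_comm
  have k1 : (∀ v, ¬ (Y v = 2 ∧ X v = 2)) ↔ ∀ v, ¬ (X v = 2 ∧ Y v = 2) :=
    forall_congr' fun v => not_congr and_comm
  have k2 : (∀ v, ¬ (Y v = 0 ∧ X v = 0)) ↔ ∀ v, ¬ (X v = 0 ∧ Y v = 0) :=
    forall_congr' fun v => not_congr and_comm
  revert h key
  cases b <;> cases c <;>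
    simp only [Rel, fs, rv_le_rv, rv_eq_two, rv_eq_zero,
      if_true, if_false, Bool.false_eq_true, true_and, false_and, or_false, false_or, ne_eq,
      not_true_eq_false, not_false_eq_true, reduceCtorEq] <;> tauto

/-- the wall of a signed member has at most one vertex, its sides have at least three -/
theorem fs_card (hB : BigFam C B) {p : (V → Fin 3) × Bool} (hp : p.1 ∈ B) :
    #(side (fs p) 1) ≤ 1 ∧ 3 ≤ #(side (fs p) 2) ∧ 3 ≤ #(side (fs p) 0) := by
  obtain ⟨-, -, hw, -⟩ := hB.tight _ hp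
  obtain ⟨h2, h0⟩ := hB.big _ hp
  rcases p with ⟨X, b⟩
  cases b
  · simp only [fs, Bool.false_eq_true, if_false, side_rv_one, side_rv_two, side_rv_zero]
    exact ⟨Nat.lt_succ_iff.1 hw, h0, h2⟩
  · simp only [fs, if_true]
    exact ⟨Nat.lt_succ_iff.1 hw, h2, h0⟩

/-- two walls of at most one vertex cannot cover a side with at least three vertices -/
theorem common (P Q R : V → Fin 3) (a b : Fin 3) (hab : ∀ x : Fin 3, x ≠ b → x = a ∨ x = 1)
    (h3 : 3 ≤ #(side P a)) (hQ : #(side Q 1) ≤ 1) (hR : #(side R 1) ≤ 1)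
    (h : ∀ v, P v = a → Q v ≠ b) (h' : ∀ v, Q v = a → R v ≠ b) :
    ∃ v, P v = a ∧ R v = a := by
  classical
  by_contra hcon
  push Not at hcon
  have hsub : side P a ⊆ side Q 1 ∪ side R 1 := by
    intro v hv
    simp only [side, mem_filter, mem_univ, true_and, mem_union] at hv ⊢
    rcases hab _ (h v hv) with h1 | h1
    · rcases hab _ (h' v h1) with h2 | h2
      · exact absurd h2 (hcon v hv)
      · exact Or.inr h2
    · exact Or.inl h1
  have := (card_le_card hsub).trans (card_union_le _ _)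
  omega

theorem rel_trans (hB : BigFam C B) {p q r : (V → Fin 3) × Bool} (hp : p.1 ∈ B)
    (hq : q.1 ∈ B) (hr : r.1 ∈ B) (hpq : p.1 ≠ q.1) (hqr : q.1 ≠ r.1)
    (h : Rel p q) (h' : Rel q r) : p.1 ≠ r.1 ∧ Rel p r := by
  have hne : p.1 ≠ r.1 := by
    intro he
    by_cases hs : p.2 = r.2
    · have : p = r := Prod.ext he hs
      subst this
      exact rel_not_symm hB hp hq hpq h h'
    · have hr' : r = bar p := by
        refine Prod.ext he.symm ?_
        show r.2 = !p.2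
        revert hs
        cases p.2 <;> cases r.2 <;> simp
      have hbb : bar (bar p) = p := by
        simp [bar]
      rw [hr', ← rel_bar, hbb] at h'
      exact rel_not_bar_right hB hp hq hpq h h'
  refine ⟨hne, ?_⟩
  have top : ∀ x : Fin 3, 2 ≤ x → x = 2 := by decide
  have bot : ∀ x : Fin 3, x ≤ 0 → x = 0 := by decide
  rcases h with ⟨s1, l1⟩ | ⟨s1, l1⟩
  · rcases h' with ⟨s2, l2⟩ | ⟨s2, l2⟩
    · exact Or.inl ⟨s1.trans s2, l1.trans l2⟩
    · refine Or.inr ⟨fun e => s2 (s1.symm.trans e), fun v hv => l2 v ⟨top _ ?_, hv.2⟩⟩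
      rw [← hv.1]
      exact l1 v
  · rcases h' with ⟨s2, l2⟩ | ⟨s2, l2⟩
    · refine Or.inr ⟨fun e => s1 (e.trans s2.symm), fun v hv => l1 v ⟨hv.1, bot _ ?_⟩⟩
      rw [← hv.2]
      exact l2 v
    · have hs : p.2 = r.2 := by
        revert s1 s2
        cases p.2 <;> cases q.2 <;> cases r.2 <;> simp
      obtain ⟨wp, p2, p0⟩ := fs_card hB hp
      obtain ⟨wq, q2, q0⟩ := fs_card hB hq
      obtain ⟨wr, r2, r0⟩ := fs_card hB hr
      have c2 : ∃ v, fs p v = 2 ∧ fs r v = 2 :=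
        common (fs p) (fs q) (fs r) 2 0 (by decide) p2 wq wr (fun v h1 h2 => l1 v ⟨h1, h2⟩)
          (fun v h1 h2 => l2 v ⟨h1, h2⟩)
      have c0 : ∃ v, fs r v = 0 ∧ fs p v = 0 :=
        common (fs r) (fs q) (fs p) 0 2 (by decide) r0 wq wp (fun v h1 h2 => l2 v ⟨h2, h1⟩)
          (fun v h1 h2 => l1 v ⟨h2, h1⟩)
      have hb1 : ¬ (p.2 = (bar r).2) := by
        show ¬ (p.2 = !r.2)
        rw [hs]
        cases r.2 <;> simp
      have hb2 : ¬ ((bar p).2 = r.2) := by
        show ¬ ((!p.2) = r.2)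
        rw [hs]
        cases r.2 <;> simp
      rcases rel_cases hB hp hr hne with h1 | h1 | h1 | h1
      · exact h1
      · rcases h1 with ⟨h2, -⟩ | ⟨-, h2⟩
        · exact absurd h2 hb1
        · obtain ⟨v, hv⟩ := c2
          refine absurd ⟨hv.1, ?_⟩ (h2 v)
          rw [fs_bar, rv_eq_zero]
          exact hv.2
      · rcases h1 with ⟨h2, -⟩ | ⟨-, h2⟩
        · exact absurd h2 hb2
        · obtain ⟨v, hv⟩ := c0
          refine absurd ⟨?_, hv.1⟩ (h2 v)
          rw [fs_bar, rv_eq_two]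
          exact hv.2
      · rw [rel_bar] at h1
        rcases h1 with ⟨-, h2⟩ | ⟨h2, -⟩
        · exfalso
          refine rel_not_symm hB hq hr hqr (Or.inr ⟨s2, l2⟩) (Or.inr ⟨fun e => s2 e.symm, ?_⟩)
          intro v hv
          refine l1 v ⟨top _ ?_, hv.2⟩
          rw [← hv.1]
          exact h2 v
        · exact absurd hs.symm h2

end

end Pool.Agent.JT71
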