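import Pool.Agent.JT71.Uncross
import Pool.Agent.JT71.Basic

/-!
# The core of a weak link carries at least 72 edge ends

`weak_core_sup`: `X ⊔ Y` is closed, its side `0` is the core `{v | X v = 0 ∧ Y v = 0}`, which is
nonempty.  `¬ X ≤ rv Y` gives a `v` with letters `(2, 1)` or `(1, 2)` (`(2, 2)` is excluded by
`h`); it is in the wall of `X` or of `Y`, but not in the wall of `X ⊔ Y`, whose vertices are all
in the wall of `X` or of `Y`.  Hence `#(side (X ⊔ Y) 1) ≤ 1`, `cut (X ⊔ Y) ≥ 71` by `H1`, and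
`sep_ge`, `sep_le_sum_deg_zero` give the claim.  `weak_core_inf` is the dual statement with
`X ⊓ Y`.
-/

namespace Pool.Agent.JT71

open Finset

variable {V ι : Type*}

private lemma let_sup_zero : ∀ a b : Fin 3, a ⊔ b = 0 ↔ (a = 0 ∧ b = 0) := by decide

private lemma let_inf_two : ∀ a b : Fin 3, a ⊓ b = 2 ↔ (a = 2 ∧ b = 2) := by decide

private lemma let_sup_two : ∀ a b : Fin 3, a = 2 → a ⊔ b = 2 := by decide

private lemma let_inf_zero : ∀ a b : Fin 3, a = 0 → a ⊓ b = 0 := by decide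

private lemma let_sup_one : ∀ a b : Fin 3, a ⊔ b = 1 → (a = 1 ∨ b = 1) := by decide

private lemma let_inf_one : ∀ a b : Fin 3, a ⊓ b = 1 → (a = 1 ∨ b = 1) := by decide

private lemma let_gt : ∀ a b : Fin 3, ¬ (a = 2 ∧ b = 2) → ¬ a ≤ Fin.rev b →
    ((a = 1 ∨ b = 1) ∧ a ⊔ b ≠ 1) := by decide

private lemma let_lt : ∀ a b : Fin 3, ¬ (a = 0 ∧ b = 0) → ¬ Fin.rev a ≤ b →
    ((a = 1 ∨ b = 1) ∧ a ⊓ b ≠ 1) := by decide

private lemma wall_le_one [Fintype V] [DecidableEq V] {X Y Z : V → Fin 3}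
    (hX : #(side X 1) < 2) (hY : #(side Y 1) < 2)
    (hZ : ∀ v, Z v = 1 → (X v = 1 ∨ Y v = 1))
    (hv : ∃ v, (X v = 1 ∨ Y v = 1) ∧ Z v ≠ 1) : #(side Z 1) ≤ 1 := by
  obtain ⟨v, hv1, hv2⟩ := hv
  have hsub : side Z 1 ⊆ (side X 1 ∪ side Y 1).erase v := by
    intro u hu
    simp only [side, Finset.mem_filter, Finset.mem_univ, true_and, Finset.mem_erase,
      Finset.mem_union] at hu ⊢
    refine ⟨?_, hZ u hu⟩
    rintro rfl
    exact hv2 hu
  have hmem : v ∈ side X 1 ∪ side Y 1 := by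
    simp only [side, Finset.mem_filter, Finset.mem_univ, true_and, Finset.mem_union]
    exact hv1
  have h1 := Finset.card_le_card hsub
  rw [Finset.card_erase_of_mem hmem] at h1
  have h2 := Finset.card_union_le (side X 1) (side Y 1)
  omega

private lemma cut_ge [Fintype V] [Fintype ι] (C : Cfg V ι) (h1 : C.H1 2 71)
    {Z : V → Fin 3} (hc : C.Closed Z) (hp : Proper Z) (hw : #(side Z 1) ≤ 1) :
    72 ≤ #(C.sep Z) := by
  have h := h1 Z hc hp
  have h2 : (#(side Z 1) : ℝ) ≤ 1 := by exact_mod_cast hw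
  have h3 : ((71 : ℕ) : ℝ) ≤ C.cut Z := by
    push_cast at h ⊢
    linarith
  have h4 := sep_ge C Z 71 (by norm_num) h3
  omega

theorem weak_core_sup [Fintype V] [DecidableEq V] [Fintype ι] (C : Cfg V ι) (h1 : C.H1 2 71)
    {X Y : V → Fin 3} (hX : C.Tight 2 71 X) (hY : C.Tight 2 71 Y)
    (h : ∀ v, ¬ (X v = 2 ∧ Y v = 2)) (h0 : ∃ v, X v = 0 ∧ Y v = 0) (hn : ¬ X ≤ rv Y) :
    72 ≤ ∑ v ∈ univ.filter (fun v => X v = 0 ∧ Y v = 0), C.deg v := by
  have hside : side (X ⊔ Y) 0 = univ.filter (fun v => X v = 0 ∧ Y v = 0) := by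
    ext v
    simp only [side, Finset.mem_filter, Finset.mem_univ, true_and, Pi.sup_apply]
    exact let_sup_zero _ _
  rw [← hside]
  refine le_trans ?_ (sep_le_sum_deg_zero C (X ⊔ Y))
  obtain ⟨hX1, hX2, hX3, -⟩ := hX
  obtain ⟨hY1, hY2, hY3, -⟩ := hY
  apply cut_ge C h1 (closed_sup C hX1 hY1)
  · constructor
    · obtain ⟨v, hv⟩ := hX2.1
      exact ⟨v, let_sup_two _ _ hv⟩
    · obtain ⟨v, hv⟩ := h0
      exact ⟨v, (let_sup_zero _ _).2 hv⟩
  · apply wall_le_one hX3 hY3 (fun v hv => let_sup_one _ _ hv)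
    rw [Pi.le_def] at hn
    push Not at hn
    obtain ⟨v, hv⟩ := hn
    exact ⟨v, let_gt _ _ (h v) (not_le.2 hv)⟩

theorem weak_core_inf [Fintype V] [DecidableEq V] [Fintype ι] (C : Cfg V ι) (h1 : C.H1 2 71)
    {X Y : V → Fin 3} (hX : C.Tight 2 71 X) (hY : C.Tight 2 71 Y)
    (h : ∀ v, ¬ (X v = 0 ∧ Y v = 0)) (h0 : ∃ v, X v = 2 ∧ Y v = 2) (hn : ¬ rv X ≤ Y) :
    72 ≤ ∑ v ∈ univ.filter (fun v => X v = 2 ∧ Y v = 2), C.deg v := by
  have hside : side (X ⊓ Y) 2 = univ.filter (fun v => X v = 2 ∧ Y v = 2) := by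
    ext v
    simp only [side, Finset.mem_filter, Finset.mem_univ, true_and, Pi.inf_apply]
    exact let_inf_two _ _
  rw [← hside]
  refine le_trans ?_ (sep_le_sum_deg_two C (X ⊓ Y))
  obtain ⟨hX1, hX2, hX3, -⟩ := hX
  obtain ⟨hY1, hY2, hY3, -⟩ := hY
  apply cut_ge C h1 (closed_inf C hX1 hY1)
  · constructor
    · obtain ⟨v, hv⟩ := h0
      exact ⟨v, (let_inf_two _ _).2 hv⟩
    · obtain ⟨v, hv⟩ := hX2.2
      exact ⟨v, let_inf_zero _ _ hv⟩
  · apply wall_le_one hX3 hY3 (fun v hv => let_inf_one _ _ hv)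
    rw [Pi.le_def] at hn
    push Not at hn
    obtain ⟨v, hv⟩ := hn
    exact ⟨v, let_lt _ _ (h v) (not_le.2 hv)⟩

end Pool.Agent.JT71
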