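import Pool.Agent.JT71.Rel
import Pool.Agent.JT71.Weak

/-!
# The tree of the big members

`Rel` is a strict partial order on the finite set of signed members (`rel_trans`,
`rel_not_symm`), so there is a minimal element `p₀ = (X₀, b)`.  For `Y ≠ X₀` the relations
`Rel (Y, t) p₀` do not hold, and `Rel (bar p₀) (bar (Y, t)) ↔ Rel (Y, t) p₀`, so by `rel_cases` and
`rel_not_bar_right` there is exactly one `t` with `Rel p₀ (Y, t)`.  Let `n Y = (Y, !t)` be its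
`bar`, and `n X₀ = bar p₀`.  Put `g Y = fs (n Y)`, `lt Y Z = (Y ≠ Z ∧ Rel (n Y) (n Z))`,
`top = X₀`.

* `le_top`: `Rel p₀ (bar (n Y)) ↔ Rel (n Y) (bar p₀)`.
* `tri`: for `Y, Z ≠ X₀` the relation `Rel (bar (n Y)) (n Z)` is impossible: with
  `Rel p₀ (bar (n Y))` it gives `Rel p₀ (n Z)`, but `Rel p₀ (bar (n Z))` holds.  The remaining ones
  are `lt Y Z`, `lt Z Y` and `Rel (n Y) (bar (n Z))`, and the last one says in both cases
  (same/different sign) that no `v` has `g Y v = 2` and `g Z v = 2`.  If `Y` or `Z` is `X₀`, use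
  `le_top`.
* `forest`: if `lt X Y`, `lt X Z` and neither `lt Y Z` nor `lt Z Y`, then `Rel (n Y) (bar (n Z))`
  (from the proof of `tri`), so `Rel (n X) (bar (n Z))` by transitivity, contradicting
  `Rel (n X) (n Z)`.
* `sepa`: same sign: `g Y ≤ g Z`; different signs: definition of `Rel`.
* `weak`: `lt Y Z` and `¬ g Y ≤ g Z` imply that the signs are different; apply
  `weak_core_sup` (if `n Y = (Y, +)`) or `weak_core_inf` (if `n Y = (Y, -)`); the existence of `v`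
  is `excl` (for `weak_core_sup`) and its dual, i.e. that `Rel (n Y) (n Z)` excludes the other
  relations (for `weak_core_inf`).
-/

namespace Pool.Agent.JT71

open Finset

variable {V ι : Type*}

/-- the rooted tree structure of the big members -/
structure TreeData [Fintype V] [DecidableEq V] [Fintype ι] (C : Cfg V ι)
    (B : Finset (V → Fin 3)) where
  g : (V → Fin 3) → (V → Fin 3)
  lt : (V → Fin 3) → (V → Fin 3) → Prop
  top : V → Fin 3
  g_or : ∀ Y ∈ B, g Y = Y ∨ g Y = rv Y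
  irrefl : ∀ Y ∈ B, ¬ lt Y Y
  trans : ∀ X ∈ B, ∀ Y ∈ B, ∀ Z ∈ B, lt X Y → lt Y Z → lt X Z
  tri : ∀ Y ∈ B, ∀ Z ∈ B, Y ≠ Z → lt Y Z ∨ lt Z Y ∨ ∀ v, ¬ (g Y v = 2 ∧ g Z v = 2)
  forest : ∀ X ∈ B, ∀ Y ∈ B, ∀ Z ∈ B, lt X Y → lt X Z → Y ≠ Z → lt Y Z ∨ lt Z Y
  sepa : ∀ Y ∈ B, ∀ Z ∈ B, lt Y Z → ∀ v, ¬ (g Y v = 2 ∧ g Z v = 0)
  weak : ∀ Y ∈ B, ∀ Z ∈ B, lt Y Z → ¬ g Y ≤ g Z →
    72 ≤ ∑ v ∈ univ.filter (fun v => g Y v = 0 ∧ g Z v = 2), C.deg v
  top_mem : top ∈ B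
  le_top : ∀ Y ∈ B, Y ≠ top → lt Y top

private lemma bar_bar' (p : (V → Fin 3) × Bool) : bar (bar p) = p := by
  simp [bar]

private lemma rel_sep {p q : (V → Fin 3) × Bool} (h : Rel p q) :
    ∀ v, ¬ (fs p v = 2 ∧ fs q v = 0) := by
  rcases h with ⟨-, h⟩ | ⟨-, h⟩
  · rintro v ⟨h1, h2⟩
    have h3 := h v
    rw [h1, h2] at h3
    exact (by decide : ¬ ((2 : Fin 3) ≤ 0)) h3
  · exact h

private lemma rel_disj {p q : (V → Fin 3) × Bool} (h : Rel p (bar q)) :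
    ∀ v, ¬ (fs p v = 2 ∧ fs q v = 2) := by
  intro v hv
  refine rel_sep h v ⟨hv.1, ?_⟩
  rw [fs_bar, rv_eq_zero]
  exact hv.2

private lemma rel_swap {p q : (V → Fin 3) × Bool} : Rel p (bar q) ↔ Rel q (bar p) := by
  have h := rel_bar (p := p) (q := bar q)
  rw [bar_bar'] at h
  exact h.symm

private lemma exists_min [Fintype V] [Fintype ι] {C : Cfg V ι}
    {B : Finset (V → Fin 3)} (hB : BigFam C B) (hne : B.Nonempty) :
    ∃ p₀ : (V → Fin 3) × Bool, p₀.1 ∈ B ∧ ∀ q : (V → Fin 3) × Bool, q.1 ∈ B → q.1 ≠ p₀.1 →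
      ¬ Rel q p₀ := by
  classical
  obtain ⟨X, hX⟩ := hne
  let r : (V → Fin 3) × Bool → (V → Fin 3) × Bool → Prop :=
    fun p q => p.1 ∈ B ∧ q.1 ∈ B ∧ p.1 ≠ q.1 ∧ Rel p q
  have htr : IsTrans _ r := ⟨fun p q s h h' =>
    ⟨h.1, h'.2.1, rel_trans hB h.1 h.2.1 h'.2.1 h.2.2.1 h'.2.2.1 h.2.2.2 h'.2.2.2⟩⟩
  have hir : Std.Irrefl r := ⟨fun p h => h.2.2.1 rfl⟩
  have wf : WellFounded r := Finite.wellFounded_of_trans_of_irrefl r
  obtain ⟨p₀, hp, hmin⟩ := wf.has_min {p | p.1 ∈ B} ⟨(X, true), hX⟩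
  exact ⟨p₀, hp, fun q hq hne hrel => hmin q hq ⟨hq, hp, hne, hrel⟩⟩

theorem exists_tree [Fintype V] [DecidableEq V] [Fintype ι] {C : Cfg V ι}
    {B : Finset (V → Fin 3)} (hB : BigFam C B) (hne : B.Nonempty) :
    Nonempty (TreeData C B) := by
  classical
  obtain ⟨p₀, hp₀, hmin⟩ := exists_min hB hne
  -- the sign of every member
  obtain ⟨n, hn1, hntop, hn⟩ : ∃ n : (V → Fin 3) → (V → Fin 3) × Bool, (∀ Y, (n Y).1 = Y) ∧
      n p₀.1 = bar p₀ ∧ ∀ Y ∈ B, Y ≠ p₀.1 → Rel p₀ (bar (n Y)) := by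
    refine ⟨fun Y => if Y = p₀.1 then bar p₀ else if Rel p₀ (Y, true) then (Y, false)
      else (Y, true), ?_, ?_, ?_⟩
    · intro Y
      beta_reduce
      split_ifs with h1 h2
      · exact h1.symm
      · rfl
      · rfl
    · simp
    · intro Y hY hYne
      beta_reduce
      rw [if_neg hYne]
      split_ifs with h2
      · exact h2
      · rcases rel_cases hB (p := p₀) (q := (Y, true)) hp₀ hY hYne.symm with h3 | h3 | h3 | h3
        · exact absurd h3 h2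
        · exact h3
        · exfalso
          rw [← bar_bar' (Y, true), rel_bar] at h3
          exact hmin _ hY hYne h3
        · exfalso
          rw [rel_bar] at h3
          exact hmin _ hY hYne h3
  have hmem : ∀ {Y}, Y ∈ B → (n Y).1 ∈ B := fun {Y} hY => by rw [hn1]; exact hY
  have hmemb : ∀ {Y}, Y ∈ B → (bar (n Y)).1 ∈ B := fun {Y} hY => by
    show (n Y).1 ∈ B
    exact hmem hY
  have hneq : ∀ {Y Z}, Y ≠ Z → (n Y).1 ≠ (n Z).1 := fun {Y Z} h => by rw [hn1, hn1]; exact h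
  have htop : ∀ Y ∈ B, Y ≠ p₀.1 → Rel (n Y) (n p₀.1) := by
    intro Y hY hYne
    rw [hntop, rel_swap]
    exact hn Y hY hYne
  have htri : ∀ Y ∈ B, ∀ Z ∈ B, Y ≠ Z → Rel (n Y) (n Z) ∨ Rel (n Z) (n Y) ∨
      Rel (n Y) (bar (n Z)) := by
    intro Y hY Z hZ hYZ
    by_cases hY0 : Y = p₀.1
    · right
      left
      subst hY0
      exact htop Z hZ hYZ.symm
    by_cases hZ0 : Z = p₀.1
    · left
      subst hZ0
      exact htop Y hY hYZ
    rcases rel_cases hB (hmem hY) (hmem hZ) (hneq hYZ) with h | h | h | h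
    · exact Or.inl h
    · exact Or.inr (Or.inr h)
    · exfalso
      have h0Y : p₀.1 ≠ (bar (n Y)).1 := by
        show p₀.1 ≠ (n Y).1
        rw [hn1]
        exact fun e => hY0 e.symm
      have hYZ' : (bar (n Y)).1 ≠ (n Z).1 := hneq hYZ
      obtain ⟨h1, h2⟩ := rel_trans hB hp₀ (hmemb hY) (hmem hZ) h0Y hYZ' (hn Y hY hY0) h
      exact rel_not_bar_right hB hp₀ (hmem hZ) h1 h2 (hn Z hZ hZ0)
    · rw [rel_bar] at h
      exact Or.inr (Or.inl h)
  refine ⟨{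
    g := fun Y => fs (n Y)
    lt := fun Y Z => Y ≠ Z ∧ Rel (n Y) (n Z)
    top := p₀.1
    g_or := ?_
    irrefl := fun Y _ h => h.1 rfl
    trans := ?_
    tri := ?_
    forest := ?_
    sepa := fun Y _ Z _ h => rel_sep h.2
    weak := ?_
    top_mem := hp₀
    le_top := fun Y hY hYne => ⟨hYne, htop Y hY hYne⟩ }⟩
  · intro Y _
    have h := hn1 Y
    rcases hnY : n Y with ⟨X, b⟩
    rw [hnY] at h
    subst h
    cases b
    · right
      simp [fs]
    · left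
      simp [fs]
  · rintro X hX Y hY Z hZ ⟨h1, h2⟩ ⟨h3, h4⟩
    obtain ⟨h5, h6⟩ := rel_trans hB (hmem hX) (hmem hY) (hmem hZ) (hneq h1) (hneq h3) h2 h4
    rw [hn1, hn1] at h5
    exact ⟨h5, h6⟩
  · intro Y hY Z hZ hYZ
    rcases htri Y hY Z hZ hYZ with h | h | h
    · exact Or.inl ⟨hYZ, h⟩
    · exact Or.inr (Or.inl ⟨hYZ.symm, h⟩)
    · exact Or.inr (Or.inr (rel_disj h))
  · rintro X hX Y hY Z hZ ⟨h1, h2⟩ ⟨h3, h4⟩ hYZ
    rcases htri Y hY Z hZ hYZ with h | h | h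
    · exact Or.inl ⟨hYZ, h⟩
    · exact Or.inr ⟨hYZ.symm, h⟩
    · exfalso
      obtain ⟨h5, h6⟩ := rel_trans hB (hmem hX) (hmem hY) (hmemb hZ) (hneq h1) (hneq hYZ) h2 h
      exact rel_not_bar_right hB (hmem hX) (hmem hZ) h5 h4 h6
  · rintro Y hY Z hZ ⟨hYZ, h⟩ hle
    rcases h with ⟨-, h⟩ | ⟨hs, h⟩
    · exact absurd h hle
    have tY := hB.tight Y hY
    have tZ := hB.tight Z hZ
    have e1 := hn1 Y
    have e2 := hn1 Z
    generalize n Y = p at *
    generalize n Z = q at *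
    obtain ⟨X, b⟩ := p
    obtain ⟨X', c⟩ := q
    obtain rfl : X = Y := e1
    obtain rfl : X' = Z := e2
    cases b <;> cases c
    · exact absurd rfl hs
    · simp only [fs, Bool.false_eq_true, if_false, if_true, rv_eq_two, rv_eq_zero] at h hle ⊢
      refine weak_core_inf C hB.h1 tY tZ h ?_ hle
      by_contra hc
      push Not at hc
      exact (excl_six hB hY hZ hYZ).1 ⟨fun v hv => hc v hv.1 hv.2, h⟩
    · simp only [fs, Bool.false_eq_true, if_false, if_true, rv_eq_two, rv_eq_zero] at h hle ⊢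
      exact weak_core_sup C hB.h1 tY tZ h (excl C hB.h2 tY tZ (hB.big _ hY) h) hle
    · exact absurd rfl hs

end Pool.Agent.JT71
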