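import Pool.Agent.JT71.Defs

/-!
# Uncrossing two tight bi-sets

`cc (a ⊓ b) (a' ⊓ b') + cc (a ⊔ b) (a' ⊔ b') ≤ cc a a' + cc b b'` (`decide`).  Hence closedness and
submodularity of `cut`; the number of wall vertices is modular.  If `X, Y` are tight and crossing,
then `X ⊓ Y` and `X ⊔ Y` are closed and proper, and by `H1` all inequalities
`req (X ⊓ Y) + req (X ⊔ Y) ≤ cut (X ⊓ Y) + cut (X ⊔ Y) ≤ cut X + cut Y = req X + req Y` are
equalities.  Equality in the middle and `0 < y < 1` give equality for every edge and both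
directions, hence the identity of the rows.  A member of `{X ⊓ Y, X ⊔ Y}` with at least `k` wall
vertices has `cut = w * (k - #wall) ≤ 0`, so `cut = 0` and its row is zero.
-/

namespace Pool.Agent.JT71

open Finset

variable {V ι : Type*}

theorem cc_submod (a a' b b' : Fin 3) :
    cc (a ⊓ b) (a' ⊓ b') + cc (a ⊔ b) (a' ⊔ b') ≤ cc a a' + cc b b' := by
  revert a a' b b'
  decide

theorem closed_inf (C : Cfg V ι) {X Y : V → Fin 3} (hX : C.Closed X) (hY : C.Closed Y) :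
    C.Closed (X ⊓ Y) := by
  intro u v hQ h2 h0
  have h1 := hX u v hQ
  have h3 := hY u v hQ
  simp only [Pi.inf_apply] at h2 h0
  revert h1 h3 h2 h0
  generalize X u = a
  generalize X v = a'
  generalize Y u = b
  generalize Y v = b'
  revert a a' b b'
  decide

theorem closed_sup (C : Cfg V ι) {X Y : V → Fin 3} (hX : C.Closed X) (hY : C.Closed Y) :
    C.Closed (X ⊔ Y) := by
  intro u v hQ h2 h0
  have h1 := hX u v hQ
  have h3 := hY u v hQ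
  simp only [Pi.sup_apply] at h2 h0
  revert h1 h3 h2 h0
  generalize X u = a
  generalize X v = a'
  generalize Y u = b
  generalize Y v = b'
  revert a a' b b'
  decide

theorem wall_inf_sup [Fintype V] (X Y : V → Fin 3) :
    #(side (X ⊓ Y) 1) + #(side (X ⊔ Y) 1) = #(side X 1) + #(side Y 1) := by
  unfold side
  simp only [card_filter, ← sum_add_distrib]
  refine sum_congr rfl fun v _ => ?_
  have key : ∀ a b : Fin 3, (if a ⊓ b = 1 then 1 else 0) + (if a ⊔ b = 1 then 1 else 0)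
      = (if a = 1 then 1 else 0) + (if b = 1 then (1 : ℕ) else 0) := by decide
  exact key (X v) (Y v)

theorem cut_nonneg [Fintype ι] (C : Cfg V ι) (X : V → Fin 3) : 0 ≤ C.cut X := by
  unfold Cfg.cut
  refine sum_nonneg fun e _ => ?_
  have h1 := C.y_pos e
  have h2 := C.y_lt e
  have h3 : (0 : ℝ) ≤ (cc (X (C.s e)) (X (C.t e)) : ℝ) := Nat.cast_nonneg _
  have h4 : (0 : ℝ) ≤ (cc (X (C.t e)) (X (C.s e)) : ℝ) := Nat.cast_nonneg _
  have h5 : (0 : ℝ) ≤ 1 - C.y e := by linarith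
  positivity

theorem row_eq_zero_of_cut_eq_zero [Fintype ι] (C : Cfg V ι) (X : V → Fin 3)
    (h : C.cut X = 0) : C.row X = 0 := by
  have hnn : ∀ e ∈ (univ : Finset ι), (0 : ℝ) ≤ (cc (X (C.s e)) (X (C.t e)) : ℝ) * C.y e
      + (cc (X (C.t e)) (X (C.s e)) : ℝ) * (1 - C.y e) := by
    intro e _
    have h1 := C.y_pos e
    have h2 := C.y_lt e
    have h3 : (0 : ℝ) ≤ (cc (X (C.s e)) (X (C.t e)) : ℝ) := Nat.cast_nonneg _
    have h4 : (0 : ℝ) ≤ (cc (X (C.t e)) (X (C.s e)) : ℝ) := Nat.cast_nonneg _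
    have h5 : (0 : ℝ) ≤ 1 - C.y e := by linarith
    positivity
  have hz := (sum_eq_zero_iff_of_nonneg hnn).1 h
  funext e
  have he := hz e (mem_univ e)
  have h1 := C.y_pos e
  have h2 := C.y_lt e
  have h3 : (0 : ℝ) ≤ (cc (X (C.s e)) (X (C.t e)) : ℝ) := Nat.cast_nonneg _
  have h4 : (0 : ℝ) ≤ (cc (X (C.t e)) (X (C.s e)) : ℝ) := Nat.cast_nonneg _
  have h5 : (0 : ℝ) < 1 - C.y e := by linarith
  have h6 : (0 : ℝ) ≤ (cc (X (C.s e)) (X (C.t e)) : ℝ) * C.y e := by positivity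
  have h7 : (0 : ℝ) ≤ (cc (X (C.t e)) (X (C.s e)) : ℝ) * (1 - C.y e) := by positivity
  have h8 : (cc (X (C.s e)) (X (C.t e)) : ℝ) * C.y e = 0 := by linarith
  have h9 : (cc (X (C.t e)) (X (C.s e)) : ℝ) * (1 - C.y e) = 0 := by linarith
  have h10 : (cc (X (C.s e)) (X (C.t e)) : ℝ) = 0 := by
    rcases mul_eq_zero.1 h8 with h | h
    · exact h
    · linarith
  have h11 : (cc (X (C.t e)) (X (C.s e)) : ℝ) = 0 := by
    rcases mul_eq_zero.1 h9 with h | h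
    · exact h
    · linarith
  simp only [Cfg.row, Pi.zero_apply, h10, h11, sub_zero]

/-- per-edge submodularity, cast to the reals -/
theorem cc_submod_real (a a' b b' : Fin 3) :
    (cc (a ⊓ b) (a' ⊓ b') : ℝ) + (cc (a ⊔ b) (a' ⊔ b') : ℝ) ≤ (cc a a' : ℝ) + (cc b b' : ℝ) := by
  exact_mod_cast cc_submod a a' b b'

theorem cut_inf_sup_le [Fintype ι] (C : Cfg V ι) (X Y : V → Fin 3) :
    C.cut (X ⊓ Y) + C.cut (X ⊔ Y) ≤ C.cut X + C.cut Y := by
  unfold Cfg.cut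
  rw [← sum_add_distrib, ← sum_add_distrib]
  refine sum_le_sum fun e _ => ?_
  simp only [Pi.inf_apply, Pi.sup_apply]
  have h1 := C.y_pos e
  have h2 := C.y_lt e
  have h3 := cc_submod_real (X (C.s e)) (X (C.t e)) (Y (C.s e)) (Y (C.t e))
  have h4 := cc_submod_real (X (C.t e)) (X (C.s e)) (Y (C.t e)) (Y (C.s e))
  have h5 := mul_le_mul_of_nonneg_right h3 h1.le
  have h6 := mul_le_mul_of_nonneg_right h4 (by linarith : (0 : ℝ) ≤ 1 - C.y e)
  linarith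

theorem row_add_of_cut_eq [Fintype ι] (C : Cfg V ι) (X Y : V → Fin 3)
    (h : C.cut (X ⊓ Y) + C.cut (X ⊔ Y) = C.cut X + C.cut Y) :
    C.row X + C.row Y = C.row (X ⊓ Y) + C.row (X ⊔ Y) := by
  have hle : ∀ e ∈ (univ : Finset ι),
      ((cc ((X ⊓ Y) (C.s e)) ((X ⊓ Y) (C.t e)) : ℝ) * C.y e
        + (cc ((X ⊓ Y) (C.t e)) ((X ⊓ Y) (C.s e)) : ℝ) * (1 - C.y e))
      + ((cc ((X ⊔ Y) (C.s e)) ((X ⊔ Y) (C.t e)) : ℝ) * C.y e
        + (cc ((X ⊔ Y) (C.t e)) ((X ⊔ Y) (C.s e)) : ℝ) * (1 - C.y e))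
      ≤ ((cc (X (C.s e)) (X (C.t e)) : ℝ) * C.y e
        + (cc (X (C.t e)) (X (C.s e)) : ℝ) * (1 - C.y e))
      + ((cc (Y (C.s e)) (Y (C.t e)) : ℝ) * C.y e
        + (cc (Y (C.t e)) (Y (C.s e)) : ℝ) * (1 - C.y e)) := by
    intro e _
    simp only [Pi.inf_apply, Pi.sup_apply]
    have h1 := C.y_pos e
    have h2 := C.y_lt e
    have h3 := cc_submod_real (X (C.s e)) (X (C.t e)) (Y (C.s e)) (Y (C.t e))
    have h4 := cc_submod_real (X (C.t e)) (X (C.s e)) (Y (C.t e)) (Y (C.s e))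
    have h5 := mul_le_mul_of_nonneg_right h3 h1.le
    have h6 := mul_le_mul_of_nonneg_right h4 (by linarith : (0 : ℝ) ≤ 1 - C.y e)
    linarith
  unfold Cfg.cut at h
  rw [← sum_add_distrib, ← sum_add_distrib] at h
  have heq := (sum_eq_sum_iff_of_le hle).1 h
  funext e
  have he := heq e (mem_univ e)
  simp only [Pi.inf_apply, Pi.sup_apply] at he
  have h1 := C.y_pos e
  have h2 := C.y_lt e
  have h3 := cc_submod_real (X (C.s e)) (X (C.t e)) (Y (C.s e)) (Y (C.t e))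
  have h4 := cc_submod_real (X (C.t e)) (X (C.s e)) (Y (C.t e)) (Y (C.s e))
  have h5 : (0 : ℝ) < 1 - C.y e := by linarith
  simp only [Cfg.row, Pi.add_apply, Pi.inf_apply, Pi.sup_apply]
  have h6 : (cc (X (C.s e) ⊓ Y (C.s e)) (X (C.t e) ⊓ Y (C.t e)) : ℝ)
      + (cc (X (C.s e) ⊔ Y (C.s e)) (X (C.t e) ⊔ Y (C.t e)) : ℝ)
      = (cc (X (C.s e)) (X (C.t e)) : ℝ) + (cc (Y (C.s e)) (Y (C.t e)) : ℝ) := by
    by_contra hne
    have hlt := lt_of_le_of_ne h3 hne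
    have h7 := mul_lt_mul_of_pos_right hlt h1
    have h8 := mul_le_mul_of_nonneg_right h4 h5.le
    linarith
  have h9 : (cc (X (C.t e) ⊓ Y (C.t e)) (X (C.s e) ⊓ Y (C.s e)) : ℝ)
      + (cc (X (C.t e) ⊔ Y (C.t e)) (X (C.s e) ⊔ Y (C.s e)) : ℝ)
      = (cc (X (C.t e)) (X (C.s e)) : ℝ) + (cc (Y (C.t e)) (Y (C.s e)) : ℝ) := by
    by_contra hne
    have hlt := lt_of_le_of_ne h4 hne
    have h7 := mul_lt_mul_of_pos_right hlt h5
    have h8 := mul_le_mul_of_nonneg_right h3 h1.le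
    linarith
  linarith

theorem uncross [Fintype V] [Fintype ι] (C : Cfg V ι) (k w : ℕ) (h1 : C.H1 k w)
    {X Y : V → Fin 3} (hX : C.Tight k w X) (hY : C.Tight k w Y) (hc : Cr X Y) :
    (C.Tight k w (X ⊓ Y) ∨ C.row (X ⊓ Y) = 0) ∧ (C.Tight k w (X ⊔ Y) ∨ C.row (X ⊔ Y) = 0) ∧
      C.row X + C.row Y = C.row (X ⊓ Y) + C.row (X ⊔ Y) := by
  obtain ⟨cX, pX, wX, tX⟩ := hX
  obtain ⟨cY, pY, wY, tY⟩ := hY
  obtain ⟨⟨a, ha, ha'⟩, ⟨b, hb, hb'⟩, -, -⟩ := hc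
  have ci := closed_inf C cX cY
  have cs := closed_sup C cX cY
  have pi : Proper (X ⊓ Y) := ⟨⟨a, by simp [ha, ha']⟩, ⟨b, by simp [hb, hb']⟩⟩
  have ps : Proper (X ⊔ Y) := ⟨⟨a, by simp [ha, ha']⟩, ⟨b, by simp [hb, hb']⟩⟩
  have ri := h1 _ ci pi
  have rs := h1 _ cs ps
  have hsub := cut_inf_sup_le C X Y
  have hw := wall_inf_sup X Y
  have hw' : (#(side (X ⊓ Y) 1) : ℝ) + (#(side (X ⊔ Y) 1) : ℝ)
      = (#(side X 1) : ℝ) + (#(side Y 1) : ℝ) := by exact_mod_cast hw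
  have hsum : (w : ℝ) * ((k : ℝ) - (#(side (X ⊓ Y) 1) : ℝ))
      + (w : ℝ) * ((k : ℝ) - (#(side (X ⊔ Y) 1) : ℝ)) = C.cut X + C.cut Y := by
    rw [tX, tY, ← mul_add, ← mul_add]
    congr 1
    linarith
  have ei : C.cut (X ⊓ Y) = (w : ℝ) * ((k : ℝ) - (#(side (X ⊓ Y) 1) : ℝ)) := by linarith
  have es : C.cut (X ⊔ Y) = (w : ℝ) * ((k : ℝ) - (#(side (X ⊔ Y) 1) : ℝ)) := by linarith
  have key : ∀ Z : V → Fin 3, C.Closed Z → Proper Z →
      C.cut Z = (w : ℝ) * ((k : ℝ) - (#(side Z 1) : ℝ)) → C.Tight k w Z ∨ C.row Z = 0 := by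
    intro Z cZ pZ eZ
    by_cases hk : #(side Z 1) < k
    · exact Or.inl ⟨cZ, pZ, hk, eZ⟩
    · right
      apply row_eq_zero_of_cut_eq_zero
      apply le_antisymm _ (cut_nonneg C Z)
      rw [eZ]
      have hk' : (k : ℝ) ≤ (#(side Z 1) : ℝ) := by exact_mod_cast not_lt.1 hk
      exact mul_nonpos_of_nonneg_of_nonpos (Nat.cast_nonneg w) (by linarith)
  refine ⟨key _ ci pi ei, key _ cs ps es, row_add_of_cut_eq C X Y ?_⟩
  linarith

end Pool.Agent.JT71
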